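import Pool.Agent.H755.TT.SingInj

/-! The complex projective plane as the space of matrices `x x*`, `|x| = 1`. -/

set_option autoImplicit false
set_option linter.unusedSectionVars false

namespace Pool.Agent.H755.TT

open Set Topology
open scoped ComplexConjugate

/-- `A` is a Hermitian projection of rank one: `A = x x*` for a unit vector `x ∈ ℂ³`. -/
def IsPt (A : Fin 3 → Fin 3 → ℂ) : Prop :=
  ∃ x : Fin 3 → ℂ, ∑ i, ‖x i‖ ^ 2 = 1 ∧ ∀ i j, A i j = x i * conj (x j)

/-- The complex projective plane: the space of the Hermitian projections of rank one of `ℂ³`, with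
the topology induced from the space of all complex `3 × 3` matrices. -/
abbrev CP2 : Type := {A : Fin 3 → Fin 3 → ℂ // IsPt A}

/-- the diagonal entries. -/
def aa (A : CP2) (i : Fin 3) : ℝ := (A.1 i i).re

theorem aa_nonneg (A : CP2) (i : Fin 3) : 0 ≤ aa A i := by
  obtain ⟨A, x, h1, h2⟩ := A
  simp only [aa, h2, Complex.mul_conj, Complex.ofReal_re]
  exact Complex.normSq_nonneg _

theorem diag_eq (A : CP2) (i : Fin 3) : A.1 i i = (aa A i : ℂ) := by
  obtain ⟨A, x, h1, h2⟩ := A
  simp only [aa, h2, Complex.mul_conj, Complex.ofReal_re]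

theorem aa_sum (A : CP2) : ∑ i, aa A i = 1 := by
  obtain ⟨A, x, h1, h2⟩ := A
  simp only [aa, h2, Complex.mul_conj, Complex.ofReal_re]
  simpa only [Complex.normSq_eq_norm_sq] using h1

theorem herm (A : CP2) (i j : Fin 3) : A.1 j i = conj (A.1 i j) := by
  obtain ⟨A, x, h1, h2⟩ := A
  simp only [h2, map_mul, Complex.conj_conj]
  ring

theorem rk (A : CP2) (i j k l : Fin 3) : A.1 i j * A.1 k l = A.1 i l * A.1 k j := by
  obtain ⟨A, x, h1, h2⟩ := A
  simp only [h2]
  ring

theorem norm_entry (A : CP2) (i j : Fin 3) : ‖A.1 i j‖ ^ 2 = aa A i * aa A j := by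
  have h := rk A i j j i
  rw [herm A i j, Complex.mul_conj, diag_eq, diag_eq, Complex.normSq_eq_norm_sq] at h
  exact_mod_cast h

theorem entry_zero {A : CP2} {i : Fin 3} (j : Fin 3) (h : aa A i = 0) : A.1 i j = 0 := by
  have := norm_entry A i j
  rw [h, zero_mul] at this
  exact norm_eq_zero.1 (pow_eq_zero_iff two_ne_zero |>.1 this)

theorem entry_zero' {A : CP2} {i : Fin 3} (j : Fin 3) (h : aa A i = 0) : A.1 j i = 0 := by
  rw [herm A i j, entry_zero j h, map_zero]

/-- the point of a vector, up to scale. -/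
theorem isPt_of_vec {y : Fin 3 → ℂ} {s : ℝ} (hs : s = ∑ i, ‖y i‖ ^ 2) (hs0 : s ≠ 0)
    {B : Fin 3 → Fin 3 → ℂ} (hB : ∀ i j, B i j = y i * conj (y j) / s) : IsPt B := by
  have hs' : 0 ≤ s := by rw [hs]; positivity
  have hs'' : 0 < s := lt_of_le_of_ne hs' (Ne.symm hs0)
  have hsq : Real.sqrt s * Real.sqrt s = s := Real.mul_self_sqrt hs'
  have hsq0 : Real.sqrt s ≠ 0 := (Real.sqrt_pos.2 hs'').ne'
  refine ⟨fun i => y i / (Real.sqrt s : ℝ), ?_, ?_⟩
  · simp only [norm_div, div_pow, Complex.norm_real, Real.norm_eq_abs, sq_abs, Real.sq_sqrt hs']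
    rw [← Finset.sum_div, ← hs, div_self hs0]
  · intro i j
    rw [hB, map_div₀, Complex.conj_ofReal, div_mul_div_comm]
    congr 1
    rw [← Complex.ofReal_mul, hsq]

/-- characterization by equations. -/
theorem isPt_of_eqs {B : Fin 3 → Fin 3 → ℂ} (h1 : ∀ i j, B j i = conj (B i j))
    (h2 : ∑ i, B i i = 1) (h3 : ∀ i j k l, B i j * B k l = B i l * B k j) : IsPt B := by
  obtain ⟨i, hi⟩ : ∃ i, B i i ≠ 0 := by
    by_contra h
    push Not at h
    rw [Finset.sum_eq_zero (fun i _ => h i)] at h2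
    exact zero_ne_one h2
  have hre : ((B i i).re : ℂ) = B i i := by
    have := h1 i i
    exact (Complex.conj_eq_iff_re.1 this.symm)
  refine isPt_of_vec (y := fun j => B j i) (s := (B i i).re) ?_ ?_ ?_
  · have h4 : ((∑ j, ‖B j i‖ ^ 2 : ℝ) : ℂ) = B i i := by
      push_cast
      have h5 : ∀ j, (‖B j i‖ : ℂ) ^ 2 = B j j * B i i := by
        intro j
        rw [h3 j j i i, h1 j i, Complex.mul_conj, Complex.normSq_eq_norm_sq]
        push_cast
        ring
      simp only [h5]
      rw [← Finset.sum_mul, h2, one_mul]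
    rw [← hre] at h4
    exact_mod_cast h4.symm
  · intro h
    rw [h] at hre
    exact hi (by rw [← hre]; simp)
  · intro j k
    rw [hre, ← h1 k i, eq_div_iff hi, ← h3 j i i k]

theorem isClosed_isPt : IsClosed {A : Fin 3 → Fin 3 → ℂ | IsPt A} := by
  have : {A : Fin 3 → Fin 3 → ℂ | IsPt A} = {A | (∀ i j, A j i = conj (A i j)) ∧
      (∑ i, A i i = 1) ∧ ∀ i j k l, A i j * A k l = A i l * A k j} := by
    ext A
    constructor
    · intro h
      refine ⟨herm ⟨A, h⟩, ?_, rk ⟨A, h⟩⟩
      have h1 := aa_sum ⟨A, h⟩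
      have h2 : ∀ i, A i i = (aa ⟨A, h⟩ i : ℂ) := diag_eq ⟨A, h⟩
      simp only [h2]
      exact_mod_cast h1
    · rintro ⟨h1, h2, h3⟩
      exact isPt_of_eqs h1 h2 h3
  rw [this]
  simp only [Set.ofPred_and, Set.ofPred_forall]
  refine IsClosed.inter ?_ (IsClosed.inter ?_ ?_)
  · refine isClosed_iInter fun i => isClosed_iInter fun j => isClosed_eq (by fun_prop) ?_
    exact Complex.continuous_conj.comp (by fun_prop)
  · exact isClosed_eq (by fun_prop) continuous_const
  · exact isClosed_iInter fun i => isClosed_iInter fun j => isClosed_iInter fun k =>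
      isClosed_iInter fun l => isClosed_eq (by fun_prop) (by fun_prop)

theorem norm_le_one (A : CP2) (i j : Fin 3) : ‖A.1 i j‖ ≤ 1 := by
  have h := norm_entry A i j
  have h1 : ∀ i, aa A i ≤ 1 := by
    intro i
    rw [← aa_sum A]
    exact Finset.single_le_sum (fun j _ => aa_nonneg A j) (Finset.mem_univ i)
  have h2 : ‖A.1 i j‖ ^ 2 ≤ 1 := by
    rw [h]
    calc aa A i * aa A j ≤ 1 * 1 := mul_le_mul (h1 i) (h1 j) (aa_nonneg A j) zero_le_one
      _ = 1 := by norm_num
  nlinarith [norm_nonneg (A.1 i j)]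

instance : CompactSpace CP2 := by
  have h : IsCompact {A : Fin 3 → Fin 3 → ℂ | IsPt A} := by
    refine (isCompact_closedBall (0 : Fin 3 → Fin 3 → ℂ) 1).of_isClosed_subset isClosed_isPt ?_
    intro A hA
    rw [mem_closedBall_zero_iff, pi_norm_le_iff_of_nonneg zero_le_one]
    intro i
    rw [pi_norm_le_iff_of_nonneg zero_le_one]
    intro j
    exact norm_le_one ⟨A, hA⟩ i j
  exact isCompact_iff_compactSpace.1 h

theorem continuous_entry (i j : Fin 3) : Continuous fun A : CP2 => A.1 i j := by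
  have h : Continuous fun A : Fin 3 → Fin 3 → ℂ => A i j := by fun_prop
  exact h.comp continuous_subtype_val

theorem continuous_aa (i : Fin 3) : Continuous fun A : CP2 => aa A i :=
  Complex.continuous_re.comp (continuous_entry i i)

/-- the coordinate points. -/
def EE (k : Fin 3) : CP2 := ⟨fun i j => if i = k ∧ j = k then 1 else 0, by
  refine isPt_of_eqs ?_ ?_ ?_
  · intro i j
    by_cases hi : i = k <;> by_cases hj : j = k <;> simp [hi, hj]
  · simp
  · intro i j l m
    by_cases hi : i = k <;> by_cases hj : j = k <;> by_cases hl : l = k <;> by_cases hm : m = k <;>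
      simp [hi, hj, hl, hm]⟩

theorem aa_EE (k i : Fin 3) : aa (EE k) i = if i = k then 1 else 0 := by
  by_cases h : i = k <;> simp [aa, EE, h]

/-! ### Rescaling -/

/-- the denominators. -/
noncomputable def ss (w : Fin 3 → ℝ) (A : CP2) : ℝ := ∑ k, w k ^ 2 * aa A k

theorem isPt_sc (w : Fin 3 → ℝ) (A : CP2) (h : ss w A ≠ 0) :
    IsPt fun i j => (w i : ℂ) * w j * A.1 i j / (ss w A : ℝ) := by
  obtain ⟨A, x, h1, h2⟩ := A
  refine isPt_of_vec (y := fun i => (w i : ℂ) * x i) (s := ss w ⟨A, x, h1, h2⟩) ?_ h ?_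
  · simp only [ss, aa, h2, Complex.mul_conj, Complex.ofReal_re, norm_mul, mul_pow,
      Complex.norm_real, Real.norm_eq_abs, sq_abs, Complex.normSq_eq_norm_sq]
  · intro i j
    simp only [h2, map_mul, Complex.conj_ofReal]
    ring

open Classical in
/-- rescaling of the coordinates. -/
noncomputable def sc (w : Fin 3 → ℝ) (A : CP2) : CP2 :=
  if h : ss w A ≠ 0 then ⟨_, isPt_sc w A h⟩ else A

theorem sc_apply {w : Fin 3 → ℝ} {A : CP2} (h : ss w A ≠ 0) (i j : Fin 3) :
    (sc w A).1 i j = (w i : ℂ) * w j * A.1 i j / (ss w A : ℝ) := by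
  rw [sc, dif_pos h]

theorem aa_sc {w : Fin 3 → ℝ} {A : CP2} (h : ss w A ≠ 0) (i : Fin 3) :
    aa (sc w A) i = w i ^ 2 * aa A i / ss w A := by
  rw [aa, sc_apply h, diag_eq]
  have : (w i : ℂ) * w i * (aa A i : ℂ) / (ss w A : ℝ) = ((w i ^ 2 * aa A i / ss w A : ℝ) : ℂ) := by
    push_cast; ring
  rw [this, Complex.ofReal_re]

theorem sc_eq_self {w : Fin 3 → ℝ} {A : CP2} (h : ∀ i j, (w i : ℂ) * w j * A.1 i j = A.1 i j) :
    sc w A = A := by
  have h1 : ss w A = 1 := by
    rw [← aa_sum A, ss]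
    refine Finset.sum_congr rfl fun k _ => ?_
    have := h k k
    rw [diag_eq] at this
    have h2 : w k * w k * aa A k = aa A k := by exact_mod_cast this
    rw [pow_two]; exact h2
  have h0 : ss w A ≠ 0 := by rw [h1]; exact one_ne_zero
  apply Subtype.ext
  funext i j
  rw [sc_apply h0, h1, h]
  simp

theorem sc_continuousAt {T : Type*} [TopologicalSpace T] {w : T → Fin 3 → ℝ} {A : T → CP2} {t₀ : T}
    (h : ∀ i j, ContinuousAt (fun t => (w t i : ℂ) * w t j * (A t).1 i j) t₀)
    (hs : ss (w t₀) (A t₀) ≠ 0) : ContinuousAt (fun t => sc (w t) (A t)) t₀ := by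
  have h1 : ContinuousAt (fun t => ss (w t) (A t)) t₀ := by
    have : (fun t => ss (w t) (A t)) =
        fun t => ∑ k, ((w t k : ℂ) * w t k * (A t).1 k k).re := by
      funext t
      rw [ss]
      refine Finset.sum_congr rfl fun k _ => ?_
      rw [diag_eq]
      have : (w t k : ℂ) * w t k * (aa (A t) k : ℂ) = ((w t k ^ 2 * aa (A t) k : ℝ) : ℂ) := by
        push_cast; ring
      rw [this, Complex.ofReal_re]
    rw [this]
    have h2 : ∀ k : Fin 3, ContinuousAt (fun t => ((w t k : ℂ) * w t k * (A t).1 k k).re) t₀ :=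
      fun k => Complex.continuous_re.continuousAt.comp (h k k)
    exact tendsto_finsetSum _ fun k _ => h2 k
  have hev : ∀ᶠ t in 𝓝 t₀, ss (w t) (A t) ≠ 0 := h1.eventually_ne hs
  rw [ContinuousAt, tendsto_subtype_rng, tendsto_pi_nhds]
  intro i
  rw [tendsto_pi_nhds]
  intro j
  have h3 : ContinuousAt (fun t => (w t i : ℂ) * w t j * (A t).1 i j / (ss (w t) (A t) : ℝ)) t₀ := by
    refine (h i j).div ?_ ?_
    · exact Complex.continuous_ofReal.continuousAt.comp h1
    · exact_mod_cast hs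
  have h4 : (fun t => (w t i : ℂ) * w t j * (A t).1 i j / (ss (w t) (A t) : ℝ)) =ᶠ[𝓝 t₀]
      fun t => (sc (w t) (A t)).1 i j := by
    filter_upwards [hev] with t ht
    rw [sc_apply ht]
  exact h3.congr h4

end Pool.Agent.H755.TT
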