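import Pool.Agent.H755.TT.Diag

/-! Charts of the complex projective plane, and the projective line in it. -/

set_option autoImplicit false
set_option linter.unusedSectionVars false

namespace Pool.Agent.H755.TT

open Set Topology
open Pool.Agent.Helper775.Tight Pool.Agent.Helper775.Tight.SoftCx
open scoped ComplexConjugate

abbrev E4 : Type := EuclideanSpace ℝ (Fin 4)

/-- coordinates. -/
noncomputable def enc (v : Fin 2 → ℂ) : E4 := !₂[(v 0).re, (v 0).im, (v 1).re, (v 1).im]

noncomputable def dec (y : E4) : Fin 2 → ℂ := ![⟨y 0, y 1⟩, ⟨y 2, y 3⟩]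

theorem dec_enc (v : Fin 2 → ℂ) : dec (enc v) = v := by
  funext k
  fin_cases k <;> simp [dec, enc]

theorem enc_dec (y : E4) : enc (dec y) = y := by
  ext k
  fin_cases k <;> simp [dec, enc]

theorem continuous_enc : Continuous enc := by
  refine (PiLp.continuous_toLp 2 _).comp ?_
  rw [continuous_pi_iff]
  intro k
  fin_cases k
  · exact Complex.continuous_re.comp (continuous_apply (A := fun _ : Fin 2 => ℂ) 0)
  · exact Complex.continuous_im.comp (continuous_apply (A := fun _ : Fin 2 => ℂ) 0)
  · exact Complex.continuous_re.comp (continuous_apply (A := fun _ : Fin 2 => ℂ) 1)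
  · exact Complex.continuous_im.comp (continuous_apply (A := fun _ : Fin 2 => ℂ) 1)

theorem continuous_mk {T : Type*} [TopologicalSpace T] {a b : T → ℝ} (ha : Continuous a)
    (hb : Continuous b) : Continuous fun t => (⟨a t, b t⟩ : ℂ) := by
  have : (fun t => (⟨a t, b t⟩ : ℂ)) = fun t => (a t : ℂ) + (b t : ℂ) * Complex.I := by
    funext t
    apply Complex.ext <;> simp
  rw [this]
  exact (Complex.continuous_ofReal.comp ha).add
    ((Complex.continuous_ofReal.comp hb).mul continuous_const)

theorem continuous_dec (k : Fin 2) : Continuous fun y : E4 => dec y k := by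
  fin_cases k
  · exact continuous_mk (a := fun y : E4 => y 0) (b := fun y : E4 => y 1) (by fun_prop) (by fun_prop)
  · exact continuous_mk (a := fun y : E4 => y 2) (b := fun y : E4 => y 3) (by fun_prop) (by fun_prop)

/-- the vector with a `1` in place `i`. -/
noncomputable def vec (i : Fin 3) (v : Fin 2 → ℂ) : Fin 3 → ℂ := i.insertNth (1 : ℂ) v

theorem vec_self (i : Fin 3) (v : Fin 2 → ℂ) : vec i v i = 1 := by simp [vec]

theorem vec_succAbove (i : Fin 3) (v : Fin 2 → ℂ) (k : Fin 2) : vec i v (i.succAbove k) = v k := by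
  simp [vec]

theorem vec_cont {T : Type*} [TopologicalSpace T] (i : Fin 3) {v : T → Fin 2 → ℂ}
    (h : ∀ k, Continuous fun t => v t k) (j : Fin 3) : Continuous fun t => vec i (v t) j := by
  rcases Fin.eq_self_or_eq_succAbove i j with rfl | ⟨k, rfl⟩
  · simp only [vec_self]; exact continuous_const
  · simp only [vec_succAbove]; exact h k

theorem vec_pos (i : Fin 3) (v : Fin 2 → ℂ) : 0 < ∑ j, ‖vec i v j‖ ^ 2 := by
  have h1 : ‖vec i v i‖ ^ 2 ≤ ∑ j, ‖vec i v j‖ ^ 2 :=
    Finset.single_le_sum (f := fun j => ‖vec i v j‖ ^ 2) (fun j _ => by positivity)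
      (Finset.mem_univ i)
  rw [vec_self, norm_one] at h1
  linarith

/-- the point with homogeneous coordinates `vec i v`. -/
noncomputable def pt (i : Fin 3) (v : Fin 2 → ℂ) : CP2 :=
  ⟨fun j k => vec i v j * conj (vec i v k) / ((∑ l, ‖vec i v l‖ ^ 2 : ℝ) : ℂ),
    isPt_of_vec rfl (vec_pos i v).ne' fun _ _ => rfl⟩

theorem pt_apply (i : Fin 3) (v : Fin 2 → ℂ) (j k : Fin 3) : (pt i v).1 j k =
    vec i v j * conj (vec i v k) / ((∑ l, ‖vec i v l‖ ^ 2 : ℝ) : ℂ) := rfl

theorem pt_cont {T : Type*} [TopologicalSpace T] (i : Fin 3) {v : T → Fin 2 → ℂ}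
    (h : ∀ k, Continuous fun t => v t k) : Continuous fun t => pt i (v t) := by
  rw [continuous_induced_rng]
  rw [continuous_pi_iff]
  intro j
  rw [continuous_pi_iff]
  intro k
  change Continuous fun t => vec i (v t) j * conj (vec i (v t) k) /
    ((∑ l, ‖vec i (v t) l‖ ^ 2 : ℝ) : ℂ)
  refine ((vec_cont i h j).mul (Complex.continuous_conj.comp (vec_cont i h k))).div ?_ ?_
  · exact Complex.continuous_ofReal.comp
      (continuous_finsetSum _ fun l _ => (vec_cont i h l).norm.pow 2)
  · intro t
    exact_mod_cast (vec_pos i (v t)).ne'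

/-- affine coordinates. -/
noncomputable def aff (i : Fin 3) (A : CP2) : Fin 2 → ℂ := fun k => A.1 (i.succAbove k) i / A.1 i i

theorem aff_pt (i : Fin 3) (v : Fin 2 → ℂ) : aff i (pt i v) = v := by
  funext k
  have h : ((∑ l, ‖vec i v l‖ ^ 2 : ℝ) : ℂ) ≠ 0 := by exact_mod_cast (vec_pos i v).ne'
  rw [aff, pt_apply, pt_apply, vec_self, vec_succAbove]
  simp only [map_one, mul_one]
  field_simp

theorem vec_aff (i : Fin 3) {A : CP2} (h : A.1 i i ≠ 0) (j : Fin 3) :
    vec i (aff i A) j = A.1 j i / A.1 i i := by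
  rcases Fin.eq_self_or_eq_succAbove i j with rfl | ⟨k, rfl⟩
  · rw [vec_self, div_self h]
  · rw [vec_succAbove]; rfl

theorem pt_aff (i : Fin 3) {A : CP2} (h : A.1 i i ≠ 0) : pt i (aff i A) = A := by
  have h' : (aa A i : ℂ) ≠ 0 := by rw [← diag_eq]; exact h
  have h'' : aa A i ≠ 0 := by exact_mod_cast h'
  have hs : ∑ l, ‖vec i (aff i A) l‖ ^ 2 = (aa A i)⁻¹ := by
    have : ∀ l, ‖vec i (aff i A) l‖ ^ 2 = aa A l * (aa A i)⁻¹ := by
      intro l
      rw [vec_aff i h, norm_div, div_pow, norm_entry, norm_entry]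
      field_simp
    simp only [this]
    rw [← Finset.sum_mul, aa_sum, one_mul]
  apply Subtype.ext
  funext j k
  rw [pt_apply, hs, vec_aff i h, vec_aff i h, map_div₀, ← herm A k i, ← herm A i i]
  rw [diag_eq A i]
  push_cast
  have h3 := rk A j i i k
  rw [diag_eq A i] at h3
  field_simp
  rw [h3, mul_comm]

theorem pt_source (i : Fin 3) (v : Fin 2 → ℂ) : (pt i v).1 i i ≠ 0 := by
  rw [pt_apply, vec_self]
  have h : ((∑ l, ‖vec i v l‖ ^ 2 : ℝ) : ℂ) ≠ 0 := by exact_mod_cast (vec_pos i v).ne'
  simp only [map_one, mul_one]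
  exact div_ne_zero one_ne_zero h

theorem aff_contOn (i : Fin 3) : ContinuousOn (fun A : CP2 => enc (aff i A)) {A | A.1 i i ≠ 0} := by
  refine continuous_enc.comp_continuousOn ?_
  rw [continuousOn_pi]
  intro k
  exact (continuous_entry _ _).continuousOn.div (continuous_entry _ _).continuousOn fun A hA => hA

/-- the affine charts. -/
noncomputable def cht (i : Fin 3) : OpenPartialHomeomorph CP2 E4 where
  toFun A := enc (aff i A)
  invFun y := pt i (dec y)
  source := {A | A.1 i i ≠ 0}
  target := univ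
  map_source' _ _ := mem_univ _
  map_target' y _ := pt_source i (dec y)
  left_inv' A hA := by rw [dec_enc, pt_aff i hA]
  right_inv' y _ := by rw [aff_pt, enc_dec]
  open_source := isOpen_ne_fun (continuous_entry i i) continuous_const
  open_target := isOpen_univ
  continuousOn_toFun := aff_contOn i
  continuousOn_invFun := (pt_cont i (v := fun y => dec y) continuous_dec).continuousOn

theorem exists_index (A : CP2) : ∃ i, A.1 i i ≠ 0 := by
  by_contra h
  push Not at h
  have h1 := aa_sum A
  rw [Finset.sum_eq_zero (fun i _ => by rw [aa, h i]; rfl)] at h1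
  exact zero_ne_one h1

open Classical in
/-- the manifold structure of `ℂP²` given by the affine charts. -/
noncomputable instance : ChartedSpace E4 CP2 where
  atlas := range cht
  chartAt A := cht (exists_index A).choose
  mem_chart_source A := (exists_index A).choose_spec
  chart_mem_atlas A := ⟨_, rfl⟩

/-- the projective line at infinity. -/
def LL : Set CP2 := {A | A.1 2 2 = 0}

theorem mem_LL {A : CP2} : A ∈ LL ↔ aa A 2 = 0 := by
  rw [LL, mem_ofPred_eq, diag_eq]
  exact_mod_cast Iff.rfl

noncomputable def LL_compl : (LLᶜ : Set CP2) ≃ₜ E4 :=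
  (Homeomorph.setCongr (s := (LLᶜ : Set CP2)) (t := (cht 2).source) rfl).trans
    ((cht 2).toHomeomorphSourceTarget.trans (Homeomorph.Set.univ _))

abbrev E3 : Type := EuclideanSpace ℝ (Fin 3)

/-- the Riemann sphere coordinates. -/
noncomputable def toS (A : CP2) : E3 := !₂[2 * (A.1 0 1).re, 2 * (A.1 0 1).im, aa A 0 - aa A 1]

theorem continuous_toS : Continuous toS := by
  refine (PiLp.continuous_toLp 2 _).comp ?_
  rw [continuous_pi_iff]
  intro k
  fin_cases k
  · exact continuous_const.mul (Complex.continuous_re.comp (continuous_entry 0 1))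
  · exact continuous_const.mul (Complex.continuous_im.comp (continuous_entry 0 1))
  · exact (continuous_aa 0).sub (continuous_aa 1)

theorem toS_norm {A : CP2} (h : A ∈ LL) : ‖toS A‖ = 1 := by
  have h1 := aa_sum A
  rw [Fin.sum_univ_three, mem_LL.1 h, add_zero] at h1
  have h2 := norm_entry A 0 1
  rw [← Complex.normSq_eq_norm_sq, Complex.normSq_apply] at h2
  rw [EuclideanSpace.norm_eq, Real.sqrt_eq_one]
  simp only [Real.norm_eq_abs, sq_abs, Fin.sum_univ_three, toS]
  simp only [Matrix.cons_val_zero, Matrix.cons_val_one, Matrix.cons_val]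
  nlinarith

noncomputable def ofSfun (y : E3) : Fin 3 → Fin 3 → ℂ :=
  ![![((1 + y 2) / 2 : ℝ), ⟨y 0 / 2, y 1 / 2⟩, 0],
    ![⟨y 0 / 2, -(y 1 / 2)⟩, ((1 - y 2) / 2 : ℝ), 0], ![0, 0, 0]]

theorem isPt_ofS {y : E3} (h : ‖y‖ = 1) : IsPt (ofSfun y) := by
  have h1 : y 0 ^ 2 + y 1 ^ 2 + y 2 ^ 2 = 1 := by
    rw [EuclideanSpace.norm_eq, Real.sqrt_eq_one] at h
    simpa [Fin.sum_univ_three, Real.norm_eq_abs, sq_abs] using h
  refine isPt_of_eqs ?_ ?_ ?_
  · intro i j
    fin_cases i <;> fin_cases j
    · exact (Complex.conj_ofReal _).symm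
    · apply Complex.ext <;> simp [ofSfun]
    · simp [ofSfun]
    · apply Complex.ext <;> simp [ofSfun]
    · exact (Complex.conj_ofReal _).symm
    · simp [ofSfun]
    · simp [ofSfun]
    · simp [ofSfun]
    · simp [ofSfun]
  · rw [Fin.sum_univ_three]
    apply Complex.ext <;> simp [ofSfun]
    ring
  · have key : ∀ i j k l : Fin 3, ofSfun y i j * ofSfun y k l = ofSfun y i l * ofSfun y k j := by
      intro i j k l
      fin_cases i <;> fin_cases j <;> fin_cases k <;> fin_cases l <;> apply Complex.ext <;>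
        simp [ofSfun] <;> nlinarith
    exact key

theorem LL_sphere_exists : Nonempty (LL ≃ₜ Metric.sphere (0 : E3) 1) := by
  have : CompactSpace LL := by
    have h : IsClosed LL := isClosed_eq (continuous_entry 2 2) continuous_const
    exact isCompact_iff_compactSpace.1 h.isCompact
  let f : LL → Metric.sphere (0 : E3) 1 := fun A => ⟨toS A.1, by
    rw [mem_sphere_zero_iff_norm]; exact toS_norm A.2⟩
  have hf : Continuous f := (continuous_toS.comp continuous_subtype_val).subtype_mk _
  let e : LL ≃ Metric.sphere (0 : E3) 1 :=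
    { toFun := f
      invFun := fun y => ⟨⟨ofSfun y.1, isPt_ofS (by simpa using y.2)⟩, by
        change ofSfun y.1 2 2 = 0
        simp [ofSfun]⟩
      left_inv := by
        rintro ⟨A, hA⟩
        apply Subtype.ext
        apply Subtype.ext
        have h2 := mem_LL.1 hA
        have h1 := aa_sum A
        rw [Fin.sum_univ_three, h2, add_zero] at h1
        have e0 : A.1 0 0 = (aa A 0 : ℂ) := diag_eq A 0
        have e1 : A.1 1 1 = (aa A 1 : ℂ) := diag_eq A 1
        have e10 : A.1 1 0 = conj (A.1 0 1) := herm A 0 1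
        have a0 : (1 + (aa A 0 - aa A 1)) / 2 = aa A 0 := by linarith
        have a1 : (1 - (aa A 0 - aa A 1)) / 2 = aa A 1 := by linarith
        have z0 : A.1 0 2 = 0 := entry_zero' 0 h2
        have z1 : A.1 1 2 = 0 := entry_zero' 1 h2
        have z2 : ∀ j, A.1 2 j = 0 := fun j => entry_zero j h2
        change ofSfun (toS A) = A.1
        funext i j
        fin_cases i <;> fin_cases j
        · simp [ofSfun, toS, e0, a0]
        · apply Complex.ext <;> simp [ofSfun, toS]
        · simp [ofSfun, z0]
        · apply Complex.ext <;> simp [ofSfun, toS, e10]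
        · simp [ofSfun, toS, e1, a1]
        · simp [ofSfun, z1]
        · simp [ofSfun, z2]
        · simp [ofSfun, z2]
        · simp [ofSfun, z2]
      right_inv := by
        rintro ⟨y, hy⟩
        apply Subtype.ext
        ext k
        fin_cases k
        · simp [f, toS, ofSfun]
          try ring
        · simp [f, toS, ofSfun]
          try ring
        · simp [f, toS, ofSfun, aa]
          try ring }
  exact ⟨Continuous.homeoOfEquivCompactToT2 (f := e) hf⟩

end Pool.Agent.H755.TT
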