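import Pool.Graph.R_seed8.Helper775.Tight.Final

/-! Low degree exactness of cones; injectivity and surjectivity in the Vietoris-Begle situation. -/

set_option autoImplicit false

namespace Pool.Agent.H755.TT

open Set Topology
open Pool.Agent.Helper775.Tight Pool.Agent.Helper775.Tight.SoftCx

section point

variable {Y K K' : Type*} [TopologicalSpace Y] [AddCommGroup K] [AddCommGroup K']
  {M : SoftCx Y K} {F : SoftCx Y K'}

theorem cone_ex_low (φ : Mor M F) (one : K) (w : Y) (hone : M.D one ∈ M.N w 2)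
    (hM : M.Acy one {w}) {d : ℕ} (hF0 : ¬ ∀ z ∈ ({w} : Set Y), φ.f one ∈ F.N z 1)
    (hF1 : ∀ k, F.Coc {w} 1 k → (∀ z ∈ ({w} : Set Y), k ∈ F.N z 1) ∨
      ∀ z ∈ ({w} : Set Y), k - φ.f one ∈ F.N z 1)
    (hF2 : ∀ n, 2 ≤ n → n ≤ d → F.Ex {w} n) (n : ℕ) (hnd : n ≤ d + 1) : (cone φ).Ex {w} n := by
  obtain ⟨-, hM1, hM2⟩ := hM
  simp only [mem_singleton_iff, forall_eq] at hM1 hF0 hF1
  rintro ⟨e, f⟩ hk
  have hk' := hk w rfl
  rw [cone_D, cone_N] at hk'
  obtain ⟨he, hf⟩ := hk'
  simp only [add_tsub_cancel_right] at he hf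
  rcases n with _ | _ | n
  · exact cob_index_zero _ _
  · have h1 := hM1 e (by intro z hz; rw [mem_singleton_iff.1 hz]; exact he)
    rcases h1 with h1 | h1
    · exact Cob.of_mem fun z hz => by
        rw [mem_singleton_iff.1 hz]; exact ⟨h1, F.N_zero _ _⟩
    · exfalso
      apply hF0
      have h2 := φ.mem w 1 _ h1
      have h3 := F.D_mem w 0 f (F.N_zero w f)
      have h4 := add_mem hf h3
      rw [map_sub] at h2
      have h5 := sub_mem h4 h2
      have e1 : φ.f e - F.D f + F.D f - (φ.f e - φ.f one) = φ.f one := by abel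
      rw [e1] at h5
      exact h5
  · obtain ⟨e', he'⟩ := hM2 (n + 2) (by omega) e
      (by intro z hz; rw [mem_singleton_iff.1 hz]; exact he)
    have he'' := he' w rfl
    have hg : F.Coc {w} (n + 1) (f - φ.f e') := by
      intro z hz
      rw [mem_singleton_iff.1 hz]
      have h1 := φ.mem w (n + 2) _ he''
      have h2 := φ.comm w (n + 2) e'
      rw [map_sub] at h1
      have h3 := neg_mem (add_mem (add_mem hf (neg_mem h1)) h2)
      convert h3 using 1
      rw [map_sub]; abel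
    rcases Nat.eq_zero_or_pos n with rfl | hn
    · rcases hF1 _ hg with h1 | h1
      · refine ⟨(e', 0), fun z hz => ?_⟩
        rw [mem_singleton_iff.1 hz, cone_D, cone_N]
        refine ⟨he'', ?_⟩
        simpa using h1
      · refine ⟨(e' + one, 0), fun z hz => ?_⟩
        rw [mem_singleton_iff.1 hz, cone_D, cone_N]
        refine ⟨?_, ?_⟩
        · have := sub_mem he'' hone
          simp only [Prod.fst_sub, map_add] at this ⊢
          convert this using 1
          abel
        · simp only [Prod.snd_sub, map_add, map_zero]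
          convert h1 using 1
          abel
    · obtain ⟨g', hg'⟩ := hF2 (n + 1) (by omega) (by omega) _ hg
      refine ⟨(e', -g'), fun z hz => ?_⟩
      rw [mem_singleton_iff.1 hz, cone_D, cone_N]
      refine ⟨he'', ?_⟩
      have := hg' w rfl
      change f - (φ.f e' - F.D (-g')) ∈ F.N w (n + 1)
      rw [map_neg]
      convert this using 1
      abel

/-- injectivity. -/
theorem cob_of_cone_ex (φ : Mor M F) {A : Set Y} {n : ℕ} (hC : (cone φ).Ex A n) {e : K}
    (he : M.Coc A n e) (h : F.Cob A n (φ.f e)) : M.Cob A n e := by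
  obtain ⟨f, hf⟩ := h
  obtain ⟨⟨e', f'⟩, h'⟩ := hC (e, f) (fun z hz => ⟨he z hz, hf z hz⟩)
  exact ⟨e', fun z hz => (h' z hz).1⟩

/-- surjectivity. -/
theorem surj_of_cone_ex (φ : Mor M F) {A : Set Y} {n : ℕ} (hC : (cone φ).Ex A (n + 1)) {f : K'}
    (hf : F.Coc A n f) : ∃ e, M.Coc A n e ∧ F.Cob A n (f - φ.f e) := by
  obtain ⟨⟨e', f'⟩, h⟩ := hC (0, f) (by
    intro z hz
    rw [cone_D, cone_N]
    refine ⟨by simp, ?_⟩
    simpa using hf z hz)
  refine ⟨e', ?_, -f', fun z hz => ?_⟩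
  · intro z hz
    have := (h z hz).1
    change (0 : K) - M.D e' ∈ M.N z (n + 1) at this
    simpa using neg_mem this
  · have h1 := (h z hz).2
    change f - (φ.f e' - F.D f') ∈ F.N z n at h1
    convert h1 using 1
    rw [map_neg]; abel

end point

section vb

variable {X Y : Type*} [MetricSpace X] [MetricSpace Y] {p : X → Y} (hp : Continuous p)
  {G : Set X} (hG : IsCompact G)

include hp hG

/-- Vietoris-Begle: injectivity. -/
theorem vb_inj (hfib : ∀ w ∈ p '' G, (AS X).Acy one (G ∩ p ⁻¹' {w})) {n : ℕ} {e : Ch Y}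
    (he : (AS Y).Coc (p '' G) n e) (h : (AS X).Cob G n (pb p e)) : (AS Y).Cob (p '' G) n e := by
  have h1 : (cone (phi p hp G hG)).Ex (p '' G) n := by
    refine ex_of_pointwise n (hG.image hp) fun w hw m _ => ?_
    refine cone_ex_of_acy (phi p hp G hG) one w (one_D_mem w) (acy_singleton w) ?_ m
    rw [push_acy]
    exact hfib w hw
  refine cob_of_cone_ex _ h1 he ?_
  rw [push_cob]
  exact h.mono inter_subset_left

/-- Vietoris-Begle: surjectivity. -/
theorem vb_surj (hfib : ∀ w ∈ p '' G, (AS X).Acy one (G ∩ p ⁻¹' {w})) {n : ℕ} {f : Ch X}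
    (hf : (AS X).Coc G n f) : ∃ e, (AS Y).Coc (p '' G) n e ∧ (AS X).Cob G n (f - pb p e) := by
  have h1 : (cone (phi p hp G hG)).Ex (p '' G) (n + 1) := by
    refine ex_of_pointwise (n + 1) (hG.image hp) fun w hw m _ => ?_
    refine cone_ex_of_acy (phi p hp G hG) one w (one_D_mem w) (acy_singleton w) ?_ m
    rw [push_acy]
    exact hfib w hw
  obtain ⟨e, he1, he2⟩ := surj_of_cone_ex _ h1 (f := f) (by
    rw [push_coc]; exact hf.mono inter_subset_left)
  refine ⟨e, he1, ?_⟩
  rw [push_cob] at he2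
  refine he2.mono ?_
  intro x hx
  exact ⟨hx, mem_image_of_mem p hx⟩

/-- injectivity in low degrees. -/
theorem low_inj {A : Set Y} (hA : IsCompact A) {d : ℕ} {n : ℕ} (hn : n ≤ d + 1)
    (hfib0 : ∀ w ∈ A, (G ∩ p ⁻¹' {w}).Nonempty)
    (hfib1 : ∀ w ∈ A, ∀ k, (AS X).Coc (G ∩ p ⁻¹' {w}) 1 k →
      (∀ z ∈ G ∩ p ⁻¹' {w}, k ∈ (AS X).N z 1) ∨ ∀ z ∈ G ∩ p ⁻¹' {w}, k - one ∈ (AS X).N z 1)
    (hfib2 : ∀ w ∈ A, ∀ n, 2 ≤ n → n ≤ d → (AS X).Ex (G ∩ p ⁻¹' {w}) n) {e : Ch Y}
    (he : (AS Y).Coc A n e) (h : (AS X).Cob (G ∩ p ⁻¹' A) n (pb p e)) : (AS Y).Cob A n e := by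
  have h1 : (cone (phi p hp G hG)).Ex A n := by
    refine ex_of_pointwise n hA fun w hw m hm => ?_
    refine cone_ex_low (phi p hp G hG) one w (one_D_mem w) (acy_singleton w) (d := d) ?_ ?_ ?_ m
      (by omega)
    · rw [forall_push_N]
      exact not_one_mem (hfib0 w hw)
    · intro k hk
      rw [push_coc] at hk
      rw [forall_push_N, forall_push_N]
      exact hfib1 w hw k hk
    · intro n hn hn2
      rw [push_ex]
      exact hfib2 w hw n hn hn2
  refine cob_of_cone_ex _ h1 he ?_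
  rw [push_cob]
  exact h

end vb

end Pool.Agent.H755.TT
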