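import Pool.Agent.H755.TT.CP2

/-! Half-spaces of the complex projective plane in diagonal form. -/

set_option autoImplicit false
set_option linter.unusedSectionVars false

namespace Pool.Agent.H755.TT

open Set Topology
open Pool.Agent.Helper775.Tight Pool.Agent.Helper775.Tight.SoftCx
open scoped ComplexConjugate

/-- the half-space of a real diagonal form. -/
def ZD (lam : Fin 3 → ℝ) : Set CP2 := {A | 0 ≤ ∑ k, lam k * aa A k}

theorem isClosed_ZD (lam : Fin 3 → ℝ) : IsClosed (ZD lam) := by
  refine isClosed_le continuous_const ?_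
  exact continuous_finsetSum _ fun k _ => continuous_const.mul (continuous_aa k)

/-- the weights. -/
noncomputable def ww (lam : Fin 3 → ℝ) (ρ : ℝ) : Fin 3 → ℝ := fun k => if lam k < 0 then ρ else 1

/-- positive part of the trace. -/
noncomputable def ap (lam : Fin 3 → ℝ) (A : CP2) : ℝ := ∑ k, if lam k < 0 then 0 else aa A k

noncomputable def qp (lam : Fin 3 → ℝ) (A : CP2) : ℝ := ∑ k, if lam k < 0 then 0 else lam k * aa A k

noncomputable def qm (lam : Fin 3 → ℝ) (A : CP2) : ℝ := ∑ k, if lam k < 0 then -lam k * aa A k else 0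

theorem continuous_ap (lam : Fin 3 → ℝ) : Continuous (ap lam) := by
  refine continuous_finsetSum _ fun k _ => ?_
  by_cases h : lam k < 0
  · simp only [h, if_true]; exact continuous_const
  · simp only [h, if_false]; exact continuous_aa k

theorem continuous_qp (lam : Fin 3 → ℝ) : Continuous (qp lam) := by
  refine continuous_finsetSum _ fun k _ => ?_
  by_cases h : lam k < 0
  · simp only [h, if_true]; exact continuous_const
  · simp only [h, if_false]; exact continuous_const.mul (continuous_aa k)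

theorem continuous_qm (lam : Fin 3 → ℝ) : Continuous (qm lam) := by
  refine continuous_finsetSum _ fun k _ => ?_
  by_cases h : lam k < 0
  · simp only [h, if_true]; exact continuous_const.mul (continuous_aa k)
  · simp only [h, if_false]; exact continuous_const

theorem ap_nonneg (lam : Fin 3 → ℝ) (A : CP2) : 0 ≤ ap lam A := by
  refine Finset.sum_nonneg fun k _ => ?_
  split_ifs
  · exact le_rfl
  · exact aa_nonneg A k

theorem qp_nonneg (lam : Fin 3 → ℝ) (A : CP2) : 0 ≤ qp lam A := by
  refine Finset.sum_nonneg fun k _ => ?_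
  split_ifs with h
  · exact le_rfl
  · exact mul_nonneg (not_lt.1 h) (aa_nonneg A k)

theorem qm_term_nonneg (lam : Fin 3 → ℝ) (A : CP2) (k : Fin 3) :
    0 ≤ if lam k < 0 then -lam k * aa A k else 0 := by
  split_ifs with h
  · exact mul_nonneg (by linarith) (aa_nonneg A k)
  · exact le_rfl

theorem qm_nonneg (lam : Fin 3 → ℝ) (A : CP2) : 0 ≤ qm lam A :=
  Finset.sum_nonneg fun k _ => qm_term_nonneg lam A k

theorem sum_eq (lam : Fin 3 → ℝ) (A : CP2) : ∑ k, lam k * aa A k = qp lam A - qm lam A := by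
  rw [qp, qm, ← Finset.sum_sub_distrib]
  refine Finset.sum_congr rfl fun k _ => ?_
  by_cases h : lam k < 0
  · simp [h]
  · simp [h]

theorem mem_ZD {lam : Fin 3 → ℝ} {A : CP2} : A ∈ ZD lam ↔ qm lam A ≤ qp lam A := by
  rw [ZD, mem_ofPred_eq, sum_eq, sub_nonneg]

theorem aa_zero_of_qm {lam : Fin 3 → ℝ} {A : CP2} (h : qm lam A = 0) {k : Fin 3}
    (hk : lam k < 0) : aa A k = 0 := by
  have h1 := (Finset.sum_eq_zero_iff_of_nonneg (fun k _ => qm_term_nonneg lam A k)).1 h k
    (Finset.mem_univ k)
  rw [if_pos hk] at h1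
  rcases mul_eq_zero.1 h1 with h2 | h2
  · linarith
  · exact h2

theorem ap_pos {lam : Fin 3 → ℝ} {A : CP2} (h : A ∈ ZD lam) : 0 < ap lam A := by
  refine lt_of_le_of_ne (ap_nonneg lam A) fun h0 => ?_
  have h1 : ∀ k, (if lam k < 0 then (0 : ℝ) else aa A k) = 0 := fun k =>
    (Finset.sum_eq_zero_iff_of_nonneg (fun k _ => by
      split_ifs
      · exact le_rfl
      · exact aa_nonneg A k)).1 h0.symm k (Finset.mem_univ k)
  have h2 : qp lam A = 0 := by
    refine Finset.sum_eq_zero fun k _ => ?_
    have := h1 k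
    split_ifs at this ⊢ with h3
    · rfl
    · rw [this, mul_zero]
  have h3 : qm lam A = 0 := le_antisymm (by rw [← h2]; exact mem_ZD.1 h) (qm_nonneg _ _)
  have h4 : ∀ k, aa A k = 0 := by
    intro k
    by_cases hk : lam k < 0
    · exact aa_zero_of_qm h3 hk
    · have := h1 k
      rwa [if_neg hk] at this
  have h5 := aa_sum A
  rw [Finset.sum_eq_zero fun k _ => h4 k] at h5
  exact zero_ne_one h5

theorem ss_ww (lam : Fin 3 → ℝ) (ρ : ℝ) (A : CP2) : ss (ww lam ρ) A =
    ap lam A + ρ ^ 2 * ∑ k, if lam k < 0 then aa A k else 0 := by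
  rw [ss, ap, Finset.mul_sum, ← Finset.sum_add_distrib]
  refine Finset.sum_congr rfl fun k _ => ?_
  by_cases h : lam k < 0
  · simp [ww, h]
  · simp [ww, h]

theorem ss_ww_pos {lam : Fin 3 → ℝ} (ρ : ℝ) {A : CP2} (h : 0 < ap lam A) :
    0 < ss (ww lam ρ) A := by
  rw [ss_ww]
  have : 0 ≤ ∑ k, if lam k < 0 then aa A k else 0 := Finset.sum_nonneg fun k _ => by
    split_ifs
    · exact aa_nonneg A k
    · exact le_rfl
  positivity

theorem sum_sc {lam : Fin 3 → ℝ} (ρ : ℝ) {A : CP2} (h : 0 < ap lam A) :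
    ∑ k, lam k * aa (sc (ww lam ρ) A) k = (qp lam A - ρ ^ 2 * qm lam A) / ss (ww lam ρ) A := by
  have hs := (ss_ww_pos ρ h).ne'
  simp only [aa_sc hs]
  rw [qp, qm, Finset.mul_sum, ← Finset.sum_sub_distrib, Finset.sum_div]
  refine Finset.sum_congr rfl fun k _ => ?_
  by_cases h : lam k < 0
  · simp only [ww, h, if_true]; ring
  · simp only [ww, h, if_false]; ring

theorem sc_mem_ZD {lam : Fin 3 → ℝ} (ρ : ℝ) {A : CP2} (h : 0 < ap lam A)
    (h' : ρ ^ 2 * qm lam A ≤ qp lam A) : sc (ww lam ρ) A ∈ ZD lam := by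
  change (0 : ℝ) ≤ ∑ k, lam k * aa (sc (ww lam ρ) A) k
  rw [sum_sc ρ h]
  exact div_nonneg (by linarith) (ss_ww_pos ρ h).le

theorem ww_one (lam : Fin 3 → ℝ) : ww lam 1 = fun _ => 1 := by
  funext k; simp [ww]

theorem continuousAt_ww {T : Type*} [TopologicalSpace T] (lam : Fin 3 → ℝ) {ρ : T → ℝ} {t₀ : T}
    (h : ContinuousAt ρ t₀) (k : Fin 3) : ContinuousAt (fun t => ((ww lam (ρ t) k : ℝ) : ℂ)) t₀ := by
  refine Complex.continuous_ofReal.continuousAt.comp ?_
  by_cases hk : lam k < 0
  · simp only [ww, hk, if_true]; exact h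
  · simp only [ww, hk, if_false]; exact continuousAt_const

/-- deformation of the half-space. -/
theorem deform_ZD (lam : Fin 3 → ℝ) {C : Set CP2} (hC : C ⊆ ZD lam)
    (hC' : ∀ A ∈ ZD lam, (∀ k, lam k < 0 → aa A k = 0) → A ∈ C) : Deform (ZD lam) C := by
  refine ⟨hC, fun t A => sc (ww lam (1 - t)) A, ?_, ?_, ?_, ?_⟩
  · intro t _ A hA
    refine sc_continuousAt (T := ℝ × CP2) (w := fun p => ww lam (1 - p.1)) (A := fun p => p.2) ?_ ?_
    · intro i j
      have h1 : ContinuousAt (fun p : ℝ × CP2 => 1 - p.1) (t, A) := by fun_prop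
      have h2 : ContinuousAt (fun p : ℝ × CP2 => p.2.1 i j) (t, A) :=
        (continuous_entry i j).continuousAt.comp continuousAt_snd
      exact ((continuousAt_ww lam h1 i).mul (continuousAt_ww lam h1 j)).mul h2
    · exact (ss_ww_pos _ (ap_pos hA)).ne'
  · intro t ht A hA
    refine sc_mem_ZD _ (ap_pos hA) ?_
    have h1 := mem_ZD.1 hA
    have h2 := qm_nonneg lam A
    have h3 : (1 - t) ^ 2 ≤ 1 := by nlinarith [ht.1, ht.2]
    nlinarith
  · intro A _
    refine sc_eq_self fun i j => ?_
    rw [sub_zero, ww_one]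
    simp
  · intro A hA
    refine hC' _ ?_ ?_
    · refine sc_mem_ZD _ (ap_pos hA) ?_
      rw [sub_self]
      simpa using qp_nonneg lam A
    · intro k hk
      rw [aa_sc (ss_ww_pos _ (ap_pos hA)).ne', sub_self]
      simp [ww, hk]

open Classical in
/-- the factor of the retraction. -/
noncomputable def rr (lam : Fin 3 → ℝ) (A : CP2) : ℝ :=
  if qm lam A ≤ qp lam A then 1 else Real.sqrt (qp lam A / qm lam A)

theorem rr_nonneg (lam : Fin 3 → ℝ) (A : CP2) : 0 ≤ rr lam A := by
  rw [rr]; split_ifs
  · exact zero_le_one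
  · exact Real.sqrt_nonneg _

theorem rr_le (lam : Fin 3 → ℝ) (A : CP2) : rr lam A ≤ 1 := by
  rw [rr]; split_ifs with h
  · exact le_rfl
  · push Not at h
    have : 0 < qm lam A := (qp_nonneg lam A).trans_lt h
    rw [Real.sqrt_le_left zero_le_one, one_pow, div_le_one this]
    exact h.le

theorem rr_eq_min {lam : Fin 3 → ℝ} {A : CP2} (h : 0 < qm lam A) :
    rr lam A = min 1 (Real.sqrt (qp lam A / qm lam A)) := by
  rw [rr]
  split_ifs with h1
  · rw [min_eq_left]
    rw [Real.one_le_sqrt, one_le_div h]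
    exact h1
  · push Not at h1
    rw [min_eq_right]
    rw [Real.sqrt_le_left zero_le_one, one_pow, div_le_one h]
    exact h1.le

theorem retr_ZD (lam : Fin 3 → ℝ) : RetrNbhd (ZD lam) := by
  refine ⟨{A | 0 < ap lam A}, fun A => sc (ww lam (rr lam A)) A,
    isOpen_lt continuous_const (continuous_ap lam), fun A hA => ap_pos hA, ?_, ?_, ?_⟩
  · intro A₀ hA₀
    refine ContinuousAt.continuousWithinAt ?_
    refine sc_continuousAt (T := CP2) (w := fun A => ww lam (rr lam A)) (A := fun A => A) ?_
      (ss_ww_pos _ hA₀).ne'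
    rcases (qm_nonneg lam A₀).eq_or_lt with h0 | h0
    · intro i j
      by_cases hij : lam i < 0 ∨ lam j < 0
      · have hz : A₀.1 i j = 0 := by
          rcases hij with h | h
          · exact entry_zero j (aa_zero_of_qm h0.symm h)
          · exact entry_zero' i (aa_zero_of_qm h0.symm h)
        rw [ContinuousAt, hz, mul_zero]
        have h1 : Filter.Tendsto (fun A : CP2 => ‖A.1 i j‖) (𝓝 A₀) (𝓝 0) := by
          have := (continuous_entry i j).norm.tendsto A₀
          rwa [hz, norm_zero] at this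
        refine squeeze_zero_norm (fun A => ?_) h1
        rw [norm_mul, norm_mul]
        have hw : ∀ k, ‖((ww lam (rr lam A) k : ℝ) : ℂ)‖ ≤ 1 := by
          intro k
          rw [Complex.norm_real, Real.norm_eq_abs]
          by_cases hk : lam k < 0
          · simp only [ww, hk, if_true]
            rw [abs_of_nonneg (rr_nonneg lam A)]
            exact rr_le lam A
          · simp only [ww, hk, if_false]
            simp
        have h2 : ‖((ww lam (rr lam A) i : ℝ) : ℂ)‖ * ‖((ww lam (rr lam A) j : ℝ) : ℂ)‖ ≤ 1 :=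
          mul_le_one₀ (hw i) (norm_nonneg _) (hw j)
        calc _ ≤ 1 * ‖A.1 i j‖ := mul_le_mul_of_nonneg_right h2 (norm_nonneg _)
          _ = ‖A.1 i j‖ := one_mul _
      · push Not at hij
        have h1 : ¬ lam i < 0 := not_lt.2 hij.1
        have h2 : ¬ lam j < 0 := not_lt.2 hij.2
        simp only [ww, h1, h2, if_false]
        simp only [Complex.ofReal_one, one_mul]
        exact (continuous_entry i j).continuousAt
    · have hr : ContinuousAt (rr lam) A₀ := by
        have h1 : ContinuousAt (fun A => min 1 (Real.sqrt (qp lam A / qm lam A))) A₀ := by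
          refine continuousAt_const.min (Real.continuous_sqrt.continuousAt.comp ?_)
          exact (continuous_qp lam).continuousAt.div (continuous_qm lam).continuousAt h0.ne'
        refine h1.congr ?_
        filter_upwards [(continuous_qm lam).continuousAt.eventually (lt_mem_nhds h0)] with A hA
        exact (rr_eq_min hA).symm
      intro i j
      exact ((continuousAt_ww lam hr i).mul (continuousAt_ww lam hr j)).mul
        (continuous_entry i j).continuousAt
  · intro A hA
    refine sc_mem_ZD _ hA ?_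
    by_cases h : qm lam A ≤ qp lam A
    · rw [rr, if_pos h, one_pow, one_mul]; exact h
    · rw [rr, if_neg h]
      push Not at h
      have hq : 0 < qm lam A := (qp_nonneg lam A).trans_lt h
      rw [Real.sq_sqrt (div_nonneg (qp_nonneg _ _) hq.le), div_mul_cancel₀ _ hq.ne']
  · intro A hA
    have h1 : rr lam A = 1 := by rw [rr, if_pos (mem_ZD.1 hA)]
    refine sc_eq_self fun i j => ?_
    rw [h1, ww_one]
    simp

end Pool.Agent.H755.TT
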