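import Pool.Agent.H755.TT.Charts

/-! All half-spaces of the complex projective plane: surjectivity and neighbourhood retractions. -/

set_option autoImplicit false
set_option linter.unusedSectionVars false

namespace Pool.Agent.H755.TT

open Set Topology
open Pool.Agent.Helper775.Tight Pool.Agent.Helper775.Tight.SoftCx
open scoped ComplexConjugate

section transport

variable {P P' : Type*} [MetricSpace P] [MetricSpace P']

theorem surj_preimage (g : P ≃ₜ P') {Z : Set P'} (h : Surj Z) : Surj (g ⁻¹' Z) := by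
  intro n hn c hc
  have h1 : (AS P').Coc Z n (pb g.symm c) :=
    coc_pb (fun x _ => g.symm.continuous.continuousAt) (fun x hx => by
      change g (g.symm x) ∈ Z
      rwa [g.apply_symm_apply]) hc
  obtain ⟨c', hc', hcob⟩ := h n hn _ h1
  refine ⟨pb g c', coc_pb (fun x _ => g.continuous.continuousAt) (mapsTo_univ _ _) hc', ?_⟩
  have h2 := cob_pb (F := g ⁻¹' Z) (g := g) (fun x _ => g.continuous.continuousAt)
    (F' := Z) (fun x hx => hx) hcob
  have e : pb g (pb g.symm c - c') = c - pb g c' := by
    funext l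
    change c (List.map g.symm (List.map g l)) - c' (List.map g l) = c l - c' (List.map g l)
    rw [List.map_map]
    have : (g.symm ∘ g : P → P) = id := by funext x; simp
    rw [this, List.map_id]
  rwa [e] at h2

theorem retr_preimage (g : P ≃ₜ P') {Z : Set P'} (h : RetrNbhd Z) : RetrNbhd (g ⁻¹' Z) := by
  obtain ⟨U, r, hU, hZU, hr, hrZ, hrid⟩ := h
  refine ⟨g ⁻¹' U, fun x => g.symm (r (g x)), hU.preimage g.continuous, fun x hx => hZU hx, ?_, ?_, ?_⟩
  · exact g.symm.continuous.comp_continuousOn
      (hr.comp g.continuous.continuousOn fun x hx => hx)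
  · intro x hx
    change g (g.symm (r (g x))) ∈ Z
    rw [g.apply_symm_apply]
    exact hrZ hx
  · intro x hx
    change g.symm (r (g x)) = x
    rw [hrid _ hx, g.symm_apply_apply]

end transport

/-- permutation of the coordinates. -/
def permH (π : Equiv.Perm (Fin 3)) : CP2 ≃ₜ CP2 where
  toFun A := ⟨fun i j => A.1 (π i) (π j), by
    obtain ⟨A, x, h1, h2⟩ := A
    exact ⟨fun i => x (π i), by rw [← h1]; exact Equiv.sum_comp π fun i => ‖x i‖ ^ 2,
      fun i j => h2 _ _⟩⟩
  invFun A := ⟨fun i j => A.1 (π.symm i) (π.symm j), by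
    obtain ⟨A, x, h1, h2⟩ := A
    exact ⟨fun i => x (π.symm i), by rw [← h1]; exact Equiv.sum_comp π.symm fun i => ‖x i‖ ^ 2,
      fun i j => h2 _ _⟩⟩
  left_inv A := by apply Subtype.ext; funext i j; simp
  right_inv A := by apply Subtype.ext; funext i j; simp
  continuous_toFun := by
    rw [continuous_induced_rng, continuous_pi_iff]
    intro i
    rw [continuous_pi_iff]
    intro j
    exact continuous_entry _ _
  continuous_invFun := by
    rw [continuous_induced_rng, continuous_pi_iff]
    intro i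
    rw [continuous_pi_iff]
    intro j
    exact continuous_entry _ _

theorem aa_permH (π : Equiv.Perm (Fin 3)) (A : CP2) (k : Fin 3) : aa (permH π A) k = aa A (π k) :=
  rfl

theorem ZD_perm (π : Equiv.Perm (Fin 3)) (lam : Fin 3 → ℝ) :
    permH π ⁻¹' ZD (fun k => lam (π k)) = ZD lam := by
  ext A
  change 0 ≤ ∑ k, lam (π k) * aa A (π k) ↔ 0 ≤ ∑ k, lam k * aa A k
  rw [Equiv.sum_comp π fun k => lam k * aa A k]

theorem surj_one (lam : Fin 3 → ℝ) (k₀ : Fin 3) (h0 : 0 ≤ lam k₀) (h : ∀ k, k ≠ k₀ → lam k < 0) :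
    Surj (ZD lam) := by
  refine surj_of_deform (isClosed_ZD lam).isCompact (C := {EE k₀}) ?_ (surj_singleton _)
  refine deform_ZD lam ?_ ?_
  · rintro A rfl
    change 0 ≤ ∑ k, lam k * aa (EE k₀) k
    simp only [aa_EE, mul_ite, mul_one, mul_zero]
    simpa using h0
  · intro A _ hA
    have h1 : ∀ k, k ≠ k₀ → aa A k = 0 := fun k hk => hA k (h k hk)
    have h2 : aa A k₀ = 1 := by
      have h3 := aa_sum A
      rwa [Finset.sum_eq_single k₀ (fun k _ hk => h1 k hk) (by simp)] at h3
    rw [mem_singleton_iff]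
    apply Subtype.ext
    funext i j
    change A.1 i j = if i = k₀ ∧ j = k₀ then 1 else 0
    by_cases hi : i = k₀
    · by_cases hj : j = k₀
      · rw [if_pos ⟨hi, hj⟩, hi, hj, diag_eq, h2]; simp
      · rw [if_neg (fun h => hj h.2), entry_zero' i (h1 j hj)]
    · rw [if_neg (fun h => hi h.1), entry_zero j (h1 i hi)]

theorem surj_LL : Surj LL := by
  obtain ⟨e⟩ := LL_sphere_exists
  exact surj_sphere (d := 2) le_rfl LL e LL_compl

theorem surj_two (lam : Fin 3 → ℝ) (h0 : 0 ≤ lam 0) (h1 : 0 ≤ lam 1) (h2 : lam 2 < 0) :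
    Surj (ZD lam) := by
  refine surj_of_deform (isClosed_ZD lam).isCompact (C := LL) ?_ surj_LL
  refine deform_ZD lam ?_ ?_
  · intro A hA
    change 0 ≤ ∑ k, lam k * aa A k
    rw [Fin.sum_univ_three, mem_LL.1 hA, mul_zero, add_zero]
    exact add_nonneg (mul_nonneg h0 (aa_nonneg _ _)) (mul_nonneg h1 (aa_nonneg _ _))
  · intro A _ hA
    exact mem_LL.2 (hA 2 h2)

theorem surj_ZD (lam : Fin 3 → ℝ) : Surj (ZD lam) := by
  by_cases h0 : lam 0 < 0 <;> by_cases h1 : lam 1 < 0 <;> by_cases h2 : lam 2 < 0
  · have : ZD lam = ∅ := by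
      rw [eq_empty_iff_forall_notMem]
      intro A hA
      have h3 : 0 ≤ ∑ k, lam k * aa A k := hA
      have h4 := aa_sum A
      rw [Fin.sum_univ_three] at h3 h4
      have a0 := aa_nonneg A 0
      have a1 := aa_nonneg A 1
      have a2 := aa_nonneg A 2
      have b0 : lam 0 * aa A 0 ≤ 0 := mul_nonpos_of_nonpos_of_nonneg h0.le a0
      have b1 : lam 1 * aa A 1 ≤ 0 := mul_nonpos_of_nonpos_of_nonneg h1.le a1
      have b2 : lam 2 * aa A 2 ≤ 0 := mul_nonpos_of_nonpos_of_nonneg h2.le a2
      have c0 : aa A 0 = 0 := by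
        rcases mul_eq_zero.1 (show lam 0 * aa A 0 = 0 by linarith) with h | h
        · exact absurd h h0.ne
        · exact h
      have c1 : aa A 1 = 0 := by
        rcases mul_eq_zero.1 (show lam 1 * aa A 1 = 0 by linarith) with h | h
        · exact absurd h h1.ne
        · exact h
      have c2 : aa A 2 = 0 := by
        rcases mul_eq_zero.1 (show lam 2 * aa A 2 = 0 by linarith) with h | h
        · exact absurd h h2.ne
        · exact h
      rw [c0, c1, c2] at h4
      norm_num at h4
    rw [this]; exact surj_empty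
  · refine surj_one lam 2 (not_lt.1 h2) ?_
    intro k hk
    fin_cases k <;> first | exact h0 | exact h1 | exact absurd rfl hk
  · refine surj_one lam 1 (not_lt.1 h1) ?_
    intro k hk
    fin_cases k <;> first | exact h0 | exact h2 | exact absurd rfl hk
  · rw [← ZD_perm (Equiv.swap 0 2) lam]
    refine surj_preimage _ (surj_two _ ?_ ?_ ?_)
    · simpa using h2
    · have : (Equiv.swap (0 : Fin 3) 2) 1 = 1 := by decide
      simpa [this] using h1
    · simpa using h0
  · refine surj_one lam 0 (not_lt.1 h0) ?_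
    intro k hk
    fin_cases k <;> first | exact h1 | exact h2 | exact absurd rfl hk
  · rw [← ZD_perm (Equiv.swap 1 2) lam]
    refine surj_preimage _ (surj_two _ ?_ ?_ ?_)
    · have : (Equiv.swap (1 : Fin 3) 2) 0 = 0 := by decide
      simpa [this] using h0
    · simpa using h2
    · simpa using h1
  · exact surj_two lam (not_lt.1 h0) (not_lt.1 h1) h2
  · have : ZD lam = univ := by
      rw [eq_univ_iff_forall]
      intro A
      change 0 ≤ ∑ k, lam k * aa A k
      rw [Fin.sum_univ_three]
      exact add_nonneg (add_nonneg (mul_nonneg (not_lt.1 h0) (aa_nonneg _ _))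
        (mul_nonneg (not_lt.1 h1) (aa_nonneg _ _))) (mul_nonneg (not_lt.1 h2) (aa_nonneg _ _))
    rw [this]; exact surj_univ

/-! ### unitary changes of coordinates -/

/-- a point as a matrix. -/
def toM (A : CP2) : Matrix (Fin 3) (Fin 3) ℂ := A.1

theorem continuous_toM : Continuous toM := continuous_subtype_val

theorem isPt_conj {V : Matrix (Fin 3) (Fin 3) ℂ} (hV : star V * V = 1) (A : CP2) :
    IsPt (V * toM A * star V) := by
  have htr : (V * toM A * star V).trace = 1 := by
    rw [Matrix.trace_mul_cycle, hV, one_mul]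
    have h := aa_sum A
    change ∑ i, A.1 i i = 1
    simp only [diag_eq]
    exact_mod_cast h
  obtain ⟨A, x, h1, h2⟩ := A
  set y : Fin 3 → ℂ := fun i => ∑ k, V i k * x k with hy
  have hB : ∀ i j, (V * toM ⟨A, x, h1, h2⟩ * star V) i j = y i * conj (y j) := by
    intro i j
    rw [Matrix.mul_apply]
    have h3 : ∀ l, (V * toM ⟨A, x, h1, h2⟩) i l = y i * conj (x l) := by
      intro l
      rw [Matrix.mul_apply, hy, Finset.sum_mul]
      refine Finset.sum_congr rfl fun k _ => ?_
      change V i k * A k l = _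
      rw [h2]; ring
    simp only [h3]
    have h4 : conj (y j) = ∑ l, conj (V j l) * conj (x l) := by
      rw [hy, map_sum]; simp only [map_mul]
    rw [h4, Finset.mul_sum]
    refine Finset.sum_congr rfl fun l _ => ?_
    rw [Matrix.star_apply]
    simp only [RCLike.star_def]
    ring
  refine ⟨y, ?_, hB⟩
  have h5 : ((∑ i, ‖y i‖ ^ 2 : ℝ) : ℂ) = 1 := by
    rw [← htr, Matrix.trace]
    push_cast
    refine Finset.sum_congr rfl fun i _ => ?_
    rw [Matrix.diag_apply, hB, Complex.mul_conj, Complex.normSq_eq_norm_sq]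
    push_cast; rfl
  exact_mod_cast h5

/-- conjugation by a unitary matrix. -/
def cjH (V : Matrix (Fin 3) (Fin 3) ℂ) (hV : star V * V = 1) (hV' : V * star V = 1) :
    CP2 ≃ₜ CP2 where
  toFun A := ⟨V * toM A * star V, isPt_conj hV A⟩
  invFun A := ⟨star V * toM A * star (star V), isPt_conj (by rw [star_star]; exact hV') A⟩
  left_inv A := by
    apply Subtype.ext
    change star V * (V * toM A * star V) * star (star V) = toM A
    rw [star_star]
    calc star V * (V * toM A * star V) * V = (star V * V) * toM A * (star V * V) := by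
          simp only [Matrix.mul_assoc]
      _ = toM A := by rw [hV, one_mul, mul_one]
  right_inv A := by
    apply Subtype.ext
    change V * (star V * toM A * star (star V)) * star V = toM A
    rw [star_star]
    calc V * (star V * toM A * V) * star V = (V * star V) * toM A * (V * star V) := by
          simp only [Matrix.mul_assoc]
      _ = toM A := by rw [hV', one_mul, mul_one]
  continuous_toFun := by
    rw [continuous_induced_rng]
    exact (continuous_const.matrix_mul continuous_toM).matrix_mul continuous_const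
  continuous_invFun := by
    rw [continuous_induced_rng]
    exact (continuous_const.matrix_mul continuous_toM).matrix_mul continuous_const

/-- the half-space of a Hermitian form. -/
def ZQ (Q : Matrix (Fin 3) (Fin 3) ℂ) : Set CP2 := {A | 0 ≤ ((Q * toM A).trace).re}

theorem exists_ZQ {Q : Matrix (Fin 3) (Fin 3) ℂ} (hQ : Q.IsHermitian) :
    ∃ (g : CP2 ≃ₜ CP2) (lam : Fin 3 → ℝ), ZQ Q = g ⁻¹' ZD lam := by
  set V : Matrix (Fin 3) (Fin 3) ℂ := (hQ.eigenvectorUnitary).1 with hV
  have h1 : V * star V = 1 := Matrix.mem_unitaryGroup_iff.1 hQ.eigenvectorUnitary.2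
  have h2 : star V * V = 1 := Matrix.mem_unitaryGroup_iff'.1 hQ.eigenvectorUnitary.2
  refine ⟨cjH (star V) (by rw [star_star]; exact h1) (by rw [star_star]; exact h2),
    hQ.eigenvalues, ?_⟩
  ext A
  have hspec := hQ.spectral_theorem
  rw [Unitary.conjStarAlgAut_apply] at hspec
  change 0 ≤ ((Q * toM A).trace).re ↔
    0 ≤ ∑ k, hQ.eigenvalues k * ((star V * toM A * star (star V)) k k).re
  have h3 : (Q * toM A).trace = ∑ k, (hQ.eigenvalues k : ℂ) * (star V * toM A * V) k k := by
    have e : Q = V * Matrix.diagonal (RCLike.ofReal ∘ hQ.eigenvalues) * star V := hspec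
    have e1 : (Q * toM A).trace =
        (V * Matrix.diagonal (RCLike.ofReal ∘ hQ.eigenvalues) * star V * toM A).trace :=
      congrArg (fun M => (M * toM A).trace) e
    rw [e1]
    have e2 : V * Matrix.diagonal (RCLike.ofReal ∘ hQ.eigenvalues) * star V * toM A =
        V * (Matrix.diagonal (RCLike.ofReal ∘ hQ.eigenvalues) * (star V * toM A)) := by
      simp only [Matrix.mul_assoc]
    rw [e2, Matrix.trace_mul_comm, Matrix.mul_assoc, Matrix.trace]
    refine Finset.sum_congr rfl fun k _ => ?_
    rw [Matrix.diag_apply, Matrix.diagonal_mul]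
    rfl
  rw [h3, star_star, Complex.re_sum]
  simp only [Complex.re_ofReal_mul]

theorem surj_ZQ {Q : Matrix (Fin 3) (Fin 3) ℂ} (hQ : Q.IsHermitian) : Surj (ZQ Q) := by
  obtain ⟨g, lam, h⟩ := exists_ZQ hQ
  rw [h]
  exact surj_preimage g (surj_ZD lam)

theorem retr_ZQ {Q : Matrix (Fin 3) (Fin 3) ℂ} (hQ : Q.IsHermitian) : RetrNbhd (ZQ Q) := by
  obtain ⟨g, lam, h⟩ := exists_ZQ hQ
  rw [h]
  exact retr_preimage g (retr_ZD lam)

theorem isClosed_ZQ (Q : Matrix (Fin 3) (Fin 3) ℂ) : IsClosed (ZQ Q) := by
  refine isClosed_le continuous_const ?_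
  exact Complex.continuous_re.comp (continuous_const.matrix_mul continuous_toM).matrix_trace

theorem cech_ZQ {Q : Matrix (Fin 3) (Fin 3) ℂ} (hQ : Q.IsHermitian) : CechSurjective (ZQ Q) :=
  cech_of_surj (isClosed_ZQ Q).isCompact (surj_ZQ hQ)

theorem hinj_ZQ {Q : Matrix (Fin 3) (Fin 3) ℂ} (hQ : Q.IsHermitian) : HomologyInjective (ZQ Q) :=
  hinj_of_surj (m := 4) (isClosed_ZQ Q).isCompact (surj_ZQ hQ) (retr_ZQ hQ)

end Pool.Agent.H755.TT
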