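import Pool.Agent.H755.TT.Half

/-! The maps of the complex projective plane into `ℝ^N`, `4 ≤ N ≤ 8`. -/

set_option autoImplicit false
set_option linter.unusedSectionVars false

namespace Pool.Agent.H755.TT

open Set Topology
open Pool.Agent.Helper775.Tight
open scoped ComplexConjugate InnerProductSpace

/-- the eight real coordinates. -/
noncomputable def YY (A : CP2) : Fin 8 → ℝ :=
  ![2 * (A.1 0 1).re, 2 * (A.1 0 1).im, aa A 0 - aa A 1, aa A 0 + aa A 1,
    2 * (A.1 0 2).re, 2 * (A.1 0 2).im, 2 * (A.1 1 2).re, 2 * (A.1 1 2).im]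

/-- the Hermitian form of a half-space. -/
noncomputable def QQ (c : Fin 8 → ℝ) (t : ℝ) : Matrix (Fin 3) (Fin 3) ℂ :=
  !![((c 2 + c 3 - t : ℝ) : ℂ), ⟨c 0, c 1⟩, ⟨c 4, c 5⟩;
    ⟨c 0, -c 1⟩, ((-c 2 + c 3 - t : ℝ) : ℂ), ⟨c 6, c 7⟩;
    ⟨c 4, -c 5⟩, ⟨c 6, -c 7⟩, ((-t : ℝ) : ℂ)]

theorem QQ_herm (c : Fin 8 → ℝ) (t : ℝ) : (QQ c t).IsHermitian := by
  rw [Matrix.IsHermitian]
  ext i j
  rw [Matrix.conjTranspose_apply]
  fin_cases i <;> fin_cases j <;> apply Complex.ext <;> simp [QQ]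

theorem sum_eight (g : Fin 8 → ℝ) :
    ∑ j, g j = g 0 + g 1 + g 2 + g 3 + g 4 + g 5 + g 6 + g 7 := by
  rw [Fin.sum_univ_eight]

theorem trace_QQ (c : Fin 8 → ℝ) (t : ℝ) (A : CP2) :
    ((QQ c t * toM A).trace).re = ∑ j, c j * YY A j - t := by
  have h10 := herm A 0 1
  have h20 := herm A 0 2
  have h21 := herm A 1 2
  have d0 := diag_eq A 0
  have d1 := diag_eq A 1
  have d2 := diag_eq A 2
  have hs := aa_sum A
  rw [Fin.sum_univ_three] at hs
  have e2 : aa A 2 = 1 - aa A 0 - aa A 1 := by linarith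
  have hmul : (QQ c t * toM A).trace = ∑ i, ∑ k, QQ c t i k * A.1 k i := by
    rw [Matrix.trace]
    refine Finset.sum_congr rfl fun i _ => ?_
    rw [Matrix.diag_apply, Matrix.mul_apply]
    rfl
  rw [sum_eight, hmul]
  simp only [Fin.sum_univ_three, h10, h20, h21, d0, d1, d2, e2]
  simp [QQ, YY]
  ring

/-- the map into `ℝ^N`. -/
noncomputable def ff {N : ℕ} (hN : N ≤ 8) (A : CP2) : EuclideanSpace ℝ (Fin N) :=
  WithLp.toLp 2 fun i => YY A (Fin.castLE hN i)

theorem ff_apply {N : ℕ} (hN : N ≤ 8) (A : CP2) (i : Fin N) :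
    ff hN A i = YY A (Fin.castLE hN i) := rfl

theorem continuous_YY (j : Fin 8) : Continuous fun A : CP2 => YY A j := by
  fin_cases j
  · exact continuous_const.mul (Complex.continuous_re.comp (continuous_entry 0 1))
  · exact continuous_const.mul (Complex.continuous_im.comp (continuous_entry 0 1))
  · exact (continuous_aa 0).sub (continuous_aa 1)
  · exact (continuous_aa 0).add (continuous_aa 1)
  · exact continuous_const.mul (Complex.continuous_re.comp (continuous_entry 0 2))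
  · exact continuous_const.mul (Complex.continuous_im.comp (continuous_entry 0 2))
  · exact continuous_const.mul (Complex.continuous_re.comp (continuous_entry 1 2))
  · exact continuous_const.mul (Complex.continuous_im.comp (continuous_entry 1 2))

theorem continuous_ff {N : ℕ} (hN : N ≤ 8) : Continuous (ff hN) := by
  refine (PiLp.continuous_toLp 2 _).comp ?_
  rw [continuous_pi_iff]
  intro i
  exact continuous_YY _

/-- extension of a vector by zero. -/
noncomputable def ext8 {N : ℕ} (z : EuclideanSpace ℝ (Fin N)) (j : Fin 8) : ℝ :=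
  if h : j.1 < N then z ⟨j.1, h⟩ else 0

theorem inner_ff {N : ℕ} (hN : N ≤ 8) (z : EuclideanSpace ℝ (Fin N)) (A : CP2) :
    ⟪z, ff hN A⟫_ℝ = ∑ j, ext8 z j * YY A j := by
  rw [← Finset.sum_subset (Finset.subset_univ (Finset.univ.map (Fin.castLEEmb hN)))]
  · rw [Finset.sum_map, PiLp.inner_apply]
    refine Finset.sum_congr rfl fun i _ => ?_
    rw [ff_apply]
    have : ext8 z (Fin.castLEEmb hN i) = z i := by
      rw [ext8, dif_pos (show (Fin.castLEEmb hN i).1 < N from i.2)]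
      rfl
    rw [this]
    simp only [RCLike.inner_apply, conj_trivial]
    exact mul_comm _ _
  · intro j _ hj
    have : ¬ j.1 < N := by
      intro h
      refine hj (Finset.mem_map.2 ⟨⟨j.1, h⟩, Finset.mem_univ _, ?_⟩)
      ext; rfl
    rw [ext8, dif_neg this, zero_mul]

theorem half_eq {N : ℕ} (hN : N ≤ 8) (z : EuclideanSpace ℝ (Fin N)) (t : ℝ) :
    {A | t ≤ ⟪z, ff hN A⟫_ℝ} = ZQ (QQ (ext8 z) t) := by
  ext A
  change t ≤ ⟪z, ff hN A⟫_ℝ ↔ 0 ≤ ((QQ (ext8 z) t * toM A).trace).re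
  rw [trace_QQ, inner_ff, sub_nonneg]

theorem tight_ff {N : ℕ} (hN : N ≤ 8) : TightMap (ff hN) := by
  intro z t _
  rw [half_eq]
  exact hinj_ZQ (QQ_herm _ _)

theorem cech_ff {N : ℕ} (hN : N ≤ 8) : CechTightMap (ff hN) := by
  intro z t _
  rw [half_eq]
  exact cech_ZQ (QQ_herm _ _)

/-! ### values -/

theorem vec0_1 (v : Fin 2 → ℂ) : vec 0 v 1 = v 0 := vec_succAbove 0 v 0
theorem vec0_2 (v : Fin 2 → ℂ) : vec 0 v 2 = v 1 := vec_succAbove 0 v 1
theorem vec1_0 (v : Fin 2 → ℂ) : vec 1 v 0 = v 0 := vec_succAbove 1 v 0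
theorem vec1_2 (v : Fin 2 → ℂ) : vec 1 v 2 = v 1 := vec_succAbove 1 v 1

theorem YY_EE0 : YY (EE 0) = ![0, 0, 1, 1, 0, 0, 0, 0] := by
  funext j
  fin_cases j <;> simp [YY, aa, EE]

theorem YY_EE1 : YY (EE 1) = ![0, 0, -1, 1, 0, 0, 0, 0] := by
  funext j
  fin_cases j <;> simp [YY, aa, EE]

theorem YY_EE2 : YY (EE 2) = ![0, 0, 0, 0, 0, 0, 0, 0] := by
  funext j
  fin_cases j <;> simp [YY, aa, EE]

theorem YY_a : YY (pt 0 ![1, 0]) = ![1, 0, 0, 1, 0, 0, 0, 0] := by
  funext j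
  fin_cases j <;>
    simp [YY, aa, pt_apply, vec_self, vec0_1, vec0_2, Fin.sum_univ_three] <;> norm_num

theorem YY_b : YY (pt 0 ![Complex.I, 0]) = ![0, -1, 0, 1, 0, 0, 0, 0] := by
  funext j
  fin_cases j <;>
    simp [YY, aa, pt_apply, vec_self, vec0_1, vec0_2, Fin.sum_univ_three] <;> norm_num

theorem YY_c : YY (pt 0 ![0, 1]) = ![0, 0, 1 / 2, 1 / 2, 1, 0, 0, 0] := by
  funext j
  fin_cases j <;>
    simp [YY, aa, pt_apply, vec_self, vec0_1, vec0_2, Fin.sum_univ_three] <;> norm_num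

theorem YY_d : YY (pt 0 ![0, Complex.I]) = ![0, 0, 1 / 2, 1 / 2, 0, -1, 0, 0] := by
  funext j
  fin_cases j <;>
    simp [YY, aa, pt_apply, vec_self, vec0_1, vec0_2, Fin.sum_univ_three] <;> norm_num

theorem YY_e : YY (pt 1 ![0, 1]) = ![0, 0, -1 / 2, 1 / 2, 0, 0, 1, 0] := by
  funext j
  fin_cases j <;>
    simp [YY, aa, pt_apply, vec_self, vec1_0, vec1_2, Fin.sum_univ_three] <;> norm_num

theorem YY_f : YY (pt 1 ![0, Complex.I]) = ![0, 0, -1 / 2, 1 / 2, 0, 0, 0, -1] := by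
  funext j
  fin_cases j <;>
    simp [YY, aa, pt_apply, vec_self, vec1_0, vec1_2, Fin.sum_univ_three] <;> norm_num

theorem substantial_ff {N : ℕ} (hN : N ≤ 8) : Substantial (ff hN) := by
  intro z t hz
  by_contra hcon
  push Not at hcon
  simp only [inner_ff, sum_eight] at hcon
  have h2 := hcon (EE 2)
  have h0 := hcon (EE 0)
  have h1 := hcon (EE 1)
  have ha := hcon (pt 0 ![1, 0])
  have hb := hcon (pt 0 ![Complex.I, 0])
  have hc := hcon (pt 0 ![0, 1])
  have hd := hcon (pt 0 ![0, Complex.I])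
  have he := hcon (pt 1 ![0, 1])
  have hf := hcon (pt 1 ![0, Complex.I])
  rw [YY_EE2] at h2
  rw [YY_EE0] at h0
  rw [YY_EE1] at h1
  rw [YY_a] at ha
  rw [YY_b] at hb
  rw [YY_c] at hc
  rw [YY_d] at hd
  rw [YY_e] at he
  rw [YY_f] at hf
  simp at h2 h0 h1 ha hb hc hd he hf
  have c2 : ext8 z 2 = 0 := by linarith
  have c3 : ext8 z 3 = 0 := by linarith
  have c0 : ext8 z 0 = 0 := by linarith
  have c1 : ext8 z 1 = 0 := by linarith
  have c4 : ext8 z 4 = 0 := by linarith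
  have c5 : ext8 z 5 = 0 := by linarith
  have c6 : ext8 z 6 = 0 := by linarith
  have c7 : ext8 z 7 = 0 := by linarith
  have hall : ∀ j, ext8 z j = 0 := by
    intro j
    fin_cases j
    · exact c0
    · exact c1
    · exact c2
    · exact c3
    · exact c4
    · exact c5
    · exact c6
    · exact c7
  apply hz
  ext i
  have h := hall (Fin.castLE hN i)
  rw [ext8, dif_pos (show (Fin.castLE hN i).1 < N from i.2)] at h
  exact h

/-! ### the image is neither convex nor a convex hypersurface -/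

theorem YY_ne (A : CP2) (h0 : YY A 0 = 0) (h1 : YY A 1 = 0) (h2 : YY A 2 = 0) (h3 : YY A 3 = 1) :
    False := by
  have e0 : 2 * (A.1 0 1).re = 0 := h0
  have e1 : 2 * (A.1 0 1).im = 0 := h1
  have e2 : aa A 0 - aa A 1 = 0 := h2
  have e3 : aa A 0 + aa A 1 = 1 := h3
  have h := norm_entry A 0 1
  rw [← Complex.normSq_eq_norm_sq, Complex.normSq_apply] at h
  have r : (A.1 0 1).re = 0 := by linarith
  have s : (A.1 0 1).im = 0 := by linarith
  have a0 : aa A 0 = 1 / 2 := by linarith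
  have a1 : aa A 1 = 1 / 2 := by linarith
  rw [r, s, a0, a1] at h
  norm_num at h

/-- the midpoint of two points of the image. -/
noncomputable def mid {N : ℕ} (hN : N ≤ 8) : EuclideanSpace ℝ (Fin N) :=
  (1 / 2 : ℝ) • ff hN (EE 0) + (1 / 2 : ℝ) • ff hN (EE 1)

theorem mid_apply {N : ℕ} (hN : N ≤ 8) (i : Fin N) : mid hN i =
    1 / 2 * YY (EE 0) (Fin.castLE hN i) + 1 / 2 * YY (EE 1) (Fin.castLE hN i) := by
  rfl

theorem mid_notMem {N : ℕ} (hN : N ≤ 8) (hN4 : 4 ≤ N) : mid hN ∉ range (ff hN) := by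
  rintro ⟨A, hA⟩
  have key : ∀ i : Fin N, YY A (Fin.castLE hN i) =
      1 / 2 * YY (EE 0) (Fin.castLE hN i) + 1 / 2 * YY (EE 1) (Fin.castLE hN i) := by
    intro i
    rw [← mid_apply, ← hA]; rfl
  have k0 := key ⟨0, by omega⟩
  have k1 := key ⟨1, by omega⟩
  have k2 := key ⟨2, by omega⟩
  have k3 := key ⟨3, by omega⟩
  rw [YY_EE0, YY_EE1] at k0 k1 k2 k3
  refine YY_ne A ?_ ?_ ?_ ?_
  · have : YY A 0 = _ := k0
    rw [this]
    change (1 / 2 : ℝ) * 0 + 1 / 2 * 0 = 0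
    norm_num
  · have : YY A 1 = _ := k1
    rw [this]
    change (1 / 2 : ℝ) * 0 + 1 / 2 * 0 = 0
    norm_num
  · have : YY A 2 = _ := k2
    rw [this]
    change (1 / 2 : ℝ) * 1 + 1 / 2 * (-1) = 0
    norm_num
  · have : YY A 3 = _ := k3
    rw [this]
    change (1 / 2 : ℝ) * 1 + 1 / 2 * 1 = 1
    norm_num

theorem not_convex_ff {N : ℕ} (hN : N ≤ 8) (hN4 : 4 ≤ N) : ¬ Convex ℝ (range (ff hN)) := by
  intro h
  refine mid_notMem hN hN4 (h ⟨EE 0, rfl⟩ ⟨EE 1, rfl⟩ ?_ ?_ ?_) <;> norm_num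

/-- the fourth coordinate is not maximal in the interior. -/
theorem interior_not_max {N : ℕ} (i : Fin N) {C : Set (EuclideanSpace ℝ (Fin N))}
    {q : EuclideanSpace ℝ (Fin N)} (hq : q ∈ interior C) : ∃ q' ∈ C, q i < q' i := by
  set e : EuclideanSpace ℝ (Fin N) := EuclideanSpace.single i (1 : ℝ) with he
  have hc : ContinuousAt (fun s : ℝ => q + s • e) 0 := by fun_prop
  have h0 : q + (0 : ℝ) • e = q := by simp
  have hmem : C ∈ 𝓝 (q + (0 : ℝ) • e) := by rw [h0]; exact mem_interior_iff_mem_nhds.1 hq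
  have hev : ∀ᶠ s in 𝓝[>] (0 : ℝ), q + s • e ∈ C :=
    nhdsWithin_le_nhds (hc.preimage_mem_nhds hmem)
  obtain ⟨s, hs1, hs2⟩ := (hev.and self_mem_nhdsWithin).exists
  refine ⟨_, hs1, ?_⟩
  have hs2' : (0 : ℝ) < s := hs2
  have : (q + s • e) i = q i + s := by simp [he]
  rw [this]; linarith

theorem not_frontier_ff {N : ℕ} (hN : N ≤ 8) (hN4 : 4 ≤ N) (C : Set (EuclideanSpace ℝ (Fin N)))
    (hC : IsCompact C) (hconv : Convex ℝ C) : range (ff hN) ≠ frontier C := by
  intro h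
  have hsub : range (ff hN) ⊆ C := by rw [h]; exact hC.isClosed.frontier_subset
  have hmC : mid hN ∈ C := by
    refine hconv (hsub ⟨EE 0, rfl⟩) (hsub ⟨EE 1, rfl⟩) ?_ ?_ ?_ <;> norm_num
  have hint : ∀ q ∈ C, q ∉ range (ff hN) → q ∈ interior C := by
    intro q hq hq'
    by_contra h'
    refine hq' ?_
    rw [h, hC.isClosed.frontier_eq]
    exact ⟨hq, h'⟩
  set i : Fin N := ⟨3, by omega⟩ with hi
  have hm1 : mid hN i = 1 := by
    rw [mid_apply, YY_EE0, YY_EE1]
    change (1 / 2 : ℝ) * 1 + 1 / 2 * 1 = 1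
    norm_num
  obtain ⟨p, hpC, hp⟩ := hC.exists_isMaxOn ⟨_, hmC⟩
    (f := fun q : EuclideanSpace ℝ (Fin N) => q i) (by fun_prop)
  have hp1 : p i ≤ 1 := by
    by_cases hpr : p ∈ range (ff hN)
    · obtain ⟨A, rfl⟩ := hpr
      change aa A 0 + aa A 1 ≤ 1
      have hs := aa_sum A
      rw [Fin.sum_univ_three] at hs
      have := aa_nonneg A 2
      linarith
    · obtain ⟨q', hq', hlt⟩ := interior_not_max i (hint p hpC hpr)
      exact absurd (hp hq') (not_le.2 hlt)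
  obtain ⟨q', hq', hlt⟩ := interior_not_max i (hint _ hmC (mid_notMem hN hN4))
  have : q' i ≤ p i := hp hq'
  rw [hm1] at hlt
  linarith

/-! ### tameness of the line at infinity -/

theorem mem_LL_iff_cht (i : Fin 3) (k : Fin 2) (hk : i.succAbove k = 2) {B : CP2}
    (hB : B.1 i i ≠ 0) : B ∈ LL ↔ aff i B k = 0 := by
  rw [aff, hk, div_eq_zero_iff, or_iff_left hB, mem_LL]
  constructor
  · intro h
    exact entry_zero i h
  · intro h
    have h1 := norm_entry B 2 i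
    rw [h, norm_zero] at h1
    have h2 : aa B i ≠ 0 := by
      intro h3
      apply hB
      rw [diag_eq, h3]; rfl
    rcases mul_eq_zero.1 (h1.symm.trans (by norm_num)) with h4 | h4
    · exact h4
    · exact absurd h4 h2

theorem LL_flat (A : CP2) (hA : A ∈ LL) : ∃ φ : OpenPartialHomeomorph CP2 E4, A ∈ φ.source ∧
    ∀ B ∈ φ.source, (B ∈ LL ↔ ∀ i : Fin 4, 2 ≤ i.1 → φ B i = 0) := by
  have main : ∀ i : Fin 3, i.succAbove 1 = 2 → A.1 i i ≠ 0 →
      ∃ φ : OpenPartialHomeomorph CP2 E4, A ∈ φ.source ∧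
        ∀ B ∈ φ.source, (B ∈ LL ↔ ∀ i : Fin 4, 2 ≤ i.1 → φ B i = 0) := by
    intro i hi hAi
    refine ⟨cht i, hAi, ?_⟩
    intro B hB
    rw [mem_LL_iff_cht i 1 hi hB]
    constructor
    · intro h j hj
      change enc (aff i B) j = 0
      fin_cases j
      · exact absurd hj (by norm_num)
      · exact absurd hj (by norm_num)
      · change (aff i B 1).re = 0
        rw [h]; rfl
      · change (aff i B 1).im = 0
        rw [h]; rfl
    · intro h
      have h2 : (aff i B 1).re = 0 := h 2 (by norm_num)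
      have h3 : (aff i B 1).im = 0 := h 3 (by norm_num)
      exact Complex.ext h2 h3
  by_cases h0 : A.1 0 0 = 0
  · have h1 : A.1 1 1 ≠ 0 := by
      intro h1
      have hs := aa_sum A
      rw [Fin.sum_univ_three, aa, aa, h0, h1, mem_LL.1 hA] at hs
      norm_num at hs
    exact main 1 (by decide) h1
  · exact main 0 (by decide) h0

end Pool.Agent.H755.TT
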