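import Pool.Agent.H755.TT.TopNe

/-! Tight substantial maps into `ℝ^N` with `N ≤ d + 1` have convex image. -/

set_option autoImplicit false
set_option linter.unusedSectionVars false

namespace Pool.Agent.H755.TT

open Set Topology
open Pool.Agent.Helper775.Tight Pool.Agent.Helper775.Tight.SoftCx
open scoped InnerProductSpace

section W

variable {P : Type*} [MetricSpace P] [CompactSpace P] {E : Type*} [NormedAddCommGroup E]
  [InnerProductSpace ℝ E] [FiniteDimensional ℝ E]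

/-- the incidence space of points and half-spaces through the origin. -/
def WW (g : P → E) : Set (P × E) := {q | ‖q.2‖ = 1 ∧ 0 ≤ ⟪q.2, g q.1⟫_ℝ}

variable {g : P → E} (hg : Continuous g)

include hg

theorem isCompact_WW : IsCompact (WW g) := by
  have h1 : IsClosed (WW g) := by
    have a1 : IsClosed {q : P × E | ‖q.2‖ = 1} := isClosed_eq (continuous_snd.norm) continuous_const
    have a2 : IsClosed {q : P × E | (0 : ℝ) ≤ ⟪q.2, g q.1⟫_ℝ} :=
      isClosed_le continuous_const (continuous_snd.inner (hg.comp continuous_fst))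
    exact a1.inter a2
  refine (isCompact_univ.prod (isCompact_sphere (0 : E) 1)).of_isClosed_subset h1 ?_
  intro q hq
  exact ⟨mem_univ _, by simpa using hq.1⟩

/-- closed hemispheres are acyclic. -/
theorem acy_hemi {w : E} (hw : ‖w‖ = 1) : (AS E).Acy one {z : E | ‖z‖ = 1 ∧ 0 ≤ ⟪z, w⟫_ℝ} := by
  have hcl : IsCompact {z : E | ‖z‖ = 1 ∧ 0 ≤ ⟪z, w⟫_ℝ} := by
    have a1 : IsClosed {z : E | ‖z‖ = 1} := isClosed_eq continuous_norm continuous_const
    have a2 : IsClosed {z : E | (0 : ℝ) ≤ ⟪z, w⟫_ℝ} :=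
      isClosed_le continuous_const (continuous_id.inner continuous_const)
    refine (isCompact_sphere (0 : E) 1).of_isClosed_subset (a1.inter a2) ?_
    intro z hz
    simpa using hz.1
  have hpos : ∀ t ∈ Icc (0 : ℝ) 1, ∀ z ∈ {z : E | ‖z‖ = 1 ∧ 0 ≤ ⟪z, w⟫_ℝ},
      (1 - t) • z + t • w ≠ 0 := by
    intro t ht z hz h0
    have h1 : ⟪(1 - t) • z + t • w, w⟫_ℝ = 0 := by rw [h0, inner_zero_left]
    rw [inner_add_left, real_inner_smul_left, real_inner_smul_left, real_inner_self_eq_norm_sq,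
      hw] at h1
    have h2 : 0 ≤ (1 - t) * ⟪z, w⟫_ℝ := mul_nonneg (by linarith [ht.2]) hz.2
    have h3 : t = 0 := by nlinarith [ht.1]
    rw [h3] at h0
    simp only [sub_zero, one_smul, zero_smul, add_zero] at h0
    have := hz.1
    rw [h0, norm_zero] at this
    norm_num at this
  refine acy_of_contract hcl
    (fun t z => ‖(1 - t) • z + t • w‖⁻¹ • ((1 - t) • z + t • w)) w ?_ ?_ ?_ ?_ ?_
  · intro t ht z hz
    have hc : Continuous fun p : ℝ × E => (1 - p.1) • p.2 + p.1 • w := by fun_prop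
    exact ((hc.norm.continuousAt (x := (t, z))).inv₀ (by
      simpa using hpos t ht z hz)).smul hc.continuousAt
  · intro t ht z hz
    refine ⟨norm_smul_inv_norm (hpos t ht z hz), ?_⟩
    rw [real_inner_smul_left, inner_add_left, real_inner_smul_left, real_inner_smul_left,
      real_inner_self_eq_norm_sq, hw]
    have h2 : 0 ≤ (1 - t) * ⟪z, w⟫_ℝ := mul_nonneg (by linarith [ht.2]) hz.2
    have := ht.1
    positivity
  · intro z hz
    simp [hz.1]
  · intro z hz
    simp [hw]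
  · refine ⟨hw, ?_⟩
    rw [real_inner_self_eq_norm_sq, hw]; norm_num

theorem fib_fst (hg0 : ∀ x, g x ≠ 0) (x : P) :
    (AS (P × E)).Acy one (WW g ∩ Prod.fst ⁻¹' {x}) := by
  have hn : ‖g x‖ ≠ 0 := norm_ne_zero_iff.2 (hg0 x)
  have hn' : 0 < ‖g x‖ := norm_pos_iff.2 (hg0 x)
  set w : E := ‖g x‖⁻¹ • g x with hw
  have hw1 : ‖w‖ = 1 := by
    rw [hw, norm_smul, norm_inv, norm_norm, inv_mul_cancel₀ hn]
  have key : ∀ z : E, 0 ≤ ⟪z, w⟫_ℝ ↔ 0 ≤ ⟪z, g x⟫_ℝ := by
    intro z
    rw [hw, real_inner_smul_right]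
    constructor
    · intro h
      by_contra hneg
      push Not at hneg
      have : ‖g x‖⁻¹ * ⟪z, g x⟫_ℝ < 0 := mul_neg_of_pos_of_neg (inv_pos.2 hn') hneg
      linarith
    · intro h
      positivity
  have h1 := acy_hemi hg hw1
  refine acy_retract (g := Prod.snd) (g' := fun z => (x, z))
    (fun x _ => continuous_snd.continuousAt)
    (fun z _ => (Continuous.prodMk_right x).continuousAt) ?_ ?_ ?_ ?_ h1
  · rintro ⟨x', z⟩ ⟨h2, h3⟩
    have : x' = x := h3
    subst this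
    exact ⟨h2.1, (key z).2 h2.2⟩
  · rintro z ⟨h2, h3⟩
    exact ⟨⟨h2, (key z).1 h3⟩, rfl⟩
  · rintro ⟨x', z⟩ ⟨h2, h3⟩
    have : x' = x := h3
    rw [this]
  · exact ⟨(x, w), ⟨hw1, (key w).1 (by rw [real_inner_self_eq_norm_sq, hw1]; norm_num)⟩, rfl⟩

theorem fst_image (hg0 : ∀ x, g x ≠ 0) : Prod.fst '' WW g = univ := by
  rw [eq_univ_iff_forall]
  intro x
  have hn : ‖g x‖ ≠ 0 := norm_ne_zero_iff.2 (hg0 x)
  refine ⟨(x, ‖g x‖⁻¹ • g x), ⟨?_, ?_⟩, rfl⟩
  · change ‖‖g x‖⁻¹ • g x‖ = 1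
    rw [norm_smul, norm_inv, norm_norm, inv_mul_cancel₀ hn]
  · change 0 ≤ ⟪‖g x‖⁻¹ • g x, g x⟫_ℝ
    rw [real_inner_smul_left, real_inner_self_eq_norm_sq]
    positivity

end W

/-- the main step: a tight map cannot avoid an interior point of the convex hull if
`2 ≤ N ≤ d + 1`. -/
theorem core_pos {P : Type*} [MetricSpace P] [CompactSpace P] {d N : ℕ} (hd : 1 ≤ d)
    [ChartedSpace (EuclideanSpace ℝ (Fin (2 * d))) P] (S : Set P)
    (eS : S ≃ₜ Metric.sphere (0 : EuclideanSpace ℝ (Fin (d + 1))) 1)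
    (eC : (Sᶜ : Set P) ≃ₜ EuclideanSpace ℝ (Fin (2 * d)))
    (g : P → EuclideanSpace ℝ (Fin N)) (hg : Continuous g) (hN2 : 2 ≤ N) (hN : N ≤ d + 1)
    (hg0 : ∀ x, g x ≠ 0)
    (hpos : ∀ z : EuclideanSpace ℝ (Fin N), z ≠ 0 → ∃ x, 0 < ⟪z, g x⟫_ℝ)
    (hsurj : ∀ z : EuclideanSpace ℝ (Fin N), z ≠ 0 → ∀ n, 1 ≤ n → ∀ c,
      (AS P).Coc {x | 0 ≤ ⟪z, g x⟫_ℝ} n c →
        ∃ c', (AS P).Coc univ n c' ∧ (AS P).Cob {x | 0 ≤ ⟪z, g x⟫_ℝ} n (c - c')) :
    False := by
  -- basic facts on `P`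
  have hScomp : IsCompact S := by
    have : CompactSpace S := eS.symm.compactSpace
    exact isCompact_iff_compactSpace.2 inferInstance
  have hSconn : IsConnected S := by
    have h1 : IsConnected (Metric.sphere (0 : EuclideanSpace ℝ (Fin (d + 1))) 1) := by
      refine isConnected_sphere ?_ 0 zero_le_one
      rw [rank_eq_card_basis (EuclideanSpace.basisFun (Fin (d + 1)) ℝ).toBasis]
      simp only [Fintype.card_fin]
      exact_mod_cast (by omega : 1 < d + 1)
    rw [isConnected_iff_connectedSpace] at h1 ⊢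
    have := h1
    exact eS.symm.surjective.connectedSpace eS.symm.continuous
  have hPconn : ConnectedSpace P :=
    connected_of_complement (D := 2 * d) (by omega) S hSconn hScomp.isClosed eC
  have hinj : ∀ q, 1 ≤ q → q + 1 ≤ 2 * d → ∀ c, (AS P).Coc univ (q + 1) c →
      (AS P).Cob S (q + 1) c → (AS P).Cob univ (q + 1) c := fun q hq hq2 c hc hcS =>
    inj_of_complement (by omega) S hScomp.isClosed eC hq hq2 hc hcS
  have hPex : ∀ n, 2 ≤ n → n ≤ 2 * d → n ≠ d + 1 → (AS P).Ex univ n := by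
    intro n hn hn2 hnd c hc
    obtain ⟨q, rfl⟩ : ∃ q, n = q + 1 := ⟨n - 1, by omega⟩
    exact hinj q (by omega) hn2 c hc
      (ex_sphere_image hd S hScomp.isClosed eS (q + 1) hn hnd c (hc.mono (subset_univ _)))
  have hrank : ∀ c c', (AS P).Coc univ (d + 1) c → (AS P).Coc univ (d + 1) c' →
      (AS P).Cob univ (d + 1) c ∨ (AS P).Cob univ (d + 1) c' ∨
        (AS P).Cob univ (d + 1) (c - c') := by
    intro c c' hc hc'
    rcases rank_sphere_image hd S hScomp.isClosed eS c c' (hc.mono (subset_univ _))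
      (hc'.mono (subset_univ _)) with h | h | h
    · exact Or.inl (hinj d hd (by omega) c hc h)
    · exact Or.inr (Or.inl (hinj d hd (by omega) c' hc' h))
    · exact Or.inr (Or.inr (hinj d hd (by omega) _ (hc.sub hc') h))
  have hP : ∀ Z : Set P, IsCompact Z → ∀ n, 2 * d + 2 ≤ n → (AS P).Ex Z n :=
    fun Z hZ n hn => ex_of_locally_embed (m := 2 * d) exists_local_embed hZ hn (by omega)
  -- the sets
  let Z : (EuclideanSpace ℝ (Fin N)) → Set P := fun z => {x | 0 ≤ ⟪z, g x⟫_ℝ}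
  have hZc : ∀ z, IsCompact (Z z) := by
    intro z
    have a2 : IsClosed {x : P | (0 : ℝ) ≤ ⟪z, g x⟫_ℝ} :=
      isClosed_le continuous_const (continuous_const.inner hg)
    exact a2.isCompact
  have hZne : ∀ z : (EuclideanSpace ℝ (Fin N)), z ≠ 0 → (Z z).Nonempty := by
    intro z hz
    obtain ⟨x, hx⟩ := hpos z hz
    exact ⟨x, hx.le⟩
  have hZu : ∀ z : (EuclideanSpace ℝ (Fin N)), z ≠ 0 → Z z ≠ univ := by
    intro z hz h
    obtain ⟨x, hx⟩ := hpos (-z) (neg_ne_zero.2 hz)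
    have h1 : x ∈ Z z := h ▸ mem_univ x
    have h2 : 0 ≤ ⟪z, g x⟫_ℝ := h1
    rw [inner_neg_left] at hx
    linarith
  have h1 : ∀ z : (EuclideanSpace ℝ (Fin N)), z ≠ 0 → ∀ k, (AS P).Coc (Z z) 1 k →
      (∀ w ∈ Z z, k ∈ (AS P).N w 1) ∨ ∀ w ∈ Z z, k - one ∈ (AS P).N w 1 := by
    intro z hz0 k hk
    obtain ⟨c', hc', hcob⟩ := hsurj z hz0 1 le_rfl k hk
    have h0 := cob_one.1 hcob
    rcases coc_one_connected c' hc' with h | h
    · left
      intro w hw
      simpa using add_mem (h0 w hw) (h w (mem_univ w))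
    · right
      intro w hw
      have := add_mem (h0 w hw) (h w (mem_univ w))
      simpa using this
  have hex : ∀ z : (EuclideanSpace ℝ (Fin N)), z ≠ 0 → ∀ n, 2 ≤ n → n ≠ d + 1 → (AS P).Ex (Z z) n := by
    intro z hz0 n hn hnd
    rcases Nat.lt_or_ge (2 * d) n with h | h
    · rcases Nat.lt_or_ge (2 * d + 1) n with h' | h'
      · exact hP _ (hZc z) n (by omega)
      · obtain rfl : n = 2 * d + 1 := by omega
        exact ex_top (by omega) (hZc z).isClosed (hZu z hz0)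
    · intro k hk
      obtain ⟨c', hc', hcob⟩ := hsurj z hz0 n (by omega) k hk
      have := hcob.add ((hPex n hn h hnd c' hc').mono (subset_univ _))
      simpa using this
  -- the incidence space
  have hW := isCompact_WW hg
  have hfst : ∀ w ∈ Prod.fst '' WW g, (AS (P × (EuclideanSpace ℝ (Fin N)))).Acy one (WW g ∩ Prod.fst ⁻¹' {w}) :=
    fun w _ => fib_fst hg hg0 w
  have hS1 : IsCompact (Metric.sphere (0 : (EuclideanSpace ℝ (Fin N))) 1) := isCompact_sphere _ _
  have hne0 : ∀ z ∈ Metric.sphere (0 : (EuclideanSpace ℝ (Fin N))) 1, z ≠ 0 := by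
    rintro z hz rfl
    simp at hz
  have hnorm : ∀ z ∈ Metric.sphere (0 : (EuclideanSpace ℝ (Fin N))) 1, ‖z‖ = 1 := fun z hz => by simpa using hz
  have hWS : WW g ∩ Prod.snd ⁻¹' (Metric.sphere (0 : (EuclideanSpace ℝ (Fin N))) 1) = WW g := by
    ext q
    refine ⟨fun h => h.1, fun h => ⟨h, ?_⟩⟩
    simpa using h.1
  -- fibres over the sphere
  have fib1 : ∀ z : (EuclideanSpace ℝ (Fin N)), ∀ q ∈ WW g ∩ Prod.snd ⁻¹' {z}, q.1 ∈ Z z := by
    rintro z ⟨x, z'⟩ ⟨h1, h2⟩
    have : z' = z := h2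
    subst this
    exact h1.2
  have fib1' : ∀ z : (EuclideanSpace ℝ (Fin N)), ‖z‖ = 1 → ∀ x ∈ Z z, ((x, z) : P × (EuclideanSpace ℝ (Fin N))) ∈ WW g ∩ Prod.snd ⁻¹' {z} :=
    fun z hz x hx => ⟨⟨hz, hx⟩, rfl⟩
  have fibr : ∀ z : (EuclideanSpace ℝ (Fin N)), ∀ q ∈ WW g ∩ Prod.snd ⁻¹' {z}, (fun x : P => (x, z)) (Prod.fst q) = q := by
    rintro z ⟨x, z'⟩ ⟨h1, h2⟩
    have : z' = z := h2
    rw [this]
  have fibne : ∀ w ∈ Metric.sphere (0 : (EuclideanSpace ℝ (Fin N))) 1, (WW g ∩ Prod.snd ⁻¹' {w}).Nonempty := by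
    intro w hw
    obtain ⟨x, hx⟩ := hZne w (hne0 w hw)
    exact ⟨_, fib1' w (hnorm w hw) x hx⟩
  have fibone : ∀ w ∈ Metric.sphere (0 : (EuclideanSpace ℝ (Fin N))) 1, ∀ k, (AS (P × (EuclideanSpace ℝ (Fin N)))).Coc (WW g ∩ Prod.snd ⁻¹' {w}) 1 k →
      (∀ z ∈ WW g ∩ Prod.snd ⁻¹' {w}, k ∈ (AS (P × (EuclideanSpace ℝ (Fin N)))).N z 1) ∨
        ∀ z ∈ WW g ∩ Prod.snd ⁻¹' {w}, k - one ∈ (AS (P × (EuclideanSpace ℝ (Fin N)))).N z 1 := by
    intro w hw k hk
    exact coc_one_retract (g := Prod.fst) (g' := fun x => (x, w))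
      (fun x _ => continuous_fst.continuousAt)
      (fun x _ => (Continuous.prodMk_left w).continuousAt) (fun q hq => fib1 w q hq)
      (fun x hx => fib1' w (hnorm w hw) x hx) (fibr w) (h1 w (hne0 w hw)) k hk
  have fibex : ∀ w ∈ Metric.sphere (0 : (EuclideanSpace ℝ (Fin N))) 1, ∀ n, (AS P).Ex (Z w) n →
      (AS (P × (EuclideanSpace ℝ (Fin N)))).Ex (WW g ∩ Prod.snd ⁻¹' {w}) n := by
    intro w hw n hn
    exact ex_retract (g := Prod.fst) (g' := fun x => (x, w))
      (fun x _ => continuous_fst.continuousAt)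
      (fun x _ => (Continuous.prodMk_left w).continuousAt) (fun q hq => fib1 w q hq)
      (fun x hx => fib1' w (hnorm w hw) x hx) (fibr w) hn
  -- the fundamental class of the sphere
  obtain ⟨e, he, hne⟩ := sp_top (M := N) (k := N) (by omega) le_rfl
  rw [sp_eq_sphere] at he hne
  have heW : (AS (P × (EuclideanSpace ℝ (Fin N)))).Coc (WW g) N (pb Prod.snd e) :=
    coc_pb (F' := Metric.sphere (0 : (EuclideanSpace ℝ (Fin N))) 1) (fun _ _ => continuous_snd.continuousAt)
      (fun q hq => by simpa using hq.1) he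
  have hneW : ¬ (AS (P × (EuclideanSpace ℝ (Fin N)))).Cob (WW g) N (pb Prod.snd e) := by
    intro h
    apply hne
    refine low_inj (p := Prod.snd) continuous_snd hW hS1 (d := d) (by omega) fibne fibone ?_ he ?_
    · intro w hw n hn2 hnd
      exact fibex w hw n (hex w (hne0 w hw) n hn2 (by omega))
    · rw [hWS]; exact h
  obtain ⟨a, ha, haW⟩ := vb_surj (p := Prod.fst) continuous_fst hW hfst heW
  rw [fst_image hg hg0] at ha
  have hna : ¬ (AS P).Cob univ N a := by
    intro h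
    apply hneW
    have h2 := cob_pb (F := WW g) (g := (Prod.fst : P × (EuclideanSpace ℝ (Fin N)) → P))
      (fun _ _ => continuous_fst.continuousAt) (mapsTo_univ _ _) h
    have := haW.add h2
    simpa using this
  rcases Nat.lt_or_ge N (d + 1) with hlt | hge
  · exact hna (hPex N hN2 (by omega) (by omega) a ha)
  obtain rfl : N = d + 1 := by omega
  -- all fibres are acyclic
  have haZ : ∀ z ∈ Metric.sphere (0 : (EuclideanSpace ℝ (Fin (d + 1)))) 1, (AS P).Cob (Z z) (d + 1) a := by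
    intro z hz
    have h2 : (AS (EuclideanSpace ℝ (Fin (d + 1)))).Cob {z} (d + 1) e :=
      (acy_singleton z).2.2 (d + 1) (by omega) e (he.mono (by simpa using hz))
    have h3 : (AS (P × (EuclideanSpace ℝ (Fin (d + 1))))).Cob (WW g ∩ Prod.snd ⁻¹' {z}) (d + 1) (pb Prod.snd e) :=
      cob_pb (fun _ _ => continuous_snd.continuousAt) (fun q hq => hq.2) h2
    have h4 : (AS (P × (EuclideanSpace ℝ (Fin (d + 1))))).Cob (WW g ∩ Prod.snd ⁻¹' {z}) (d + 1) (pb Prod.fst a) := by
      have := h3.sub (haW.mono inter_subset_left)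
      simpa using this
    have h5 := cob_pb (F := Z z) (g := fun x : P => (x, z))
      (fun x _ => (Continuous.prodMk_left z).continuousAt)
      (fun x hx => fib1' z (hnorm z hz) x hx) h4
    have e1 : pb (fun x : P => (x, z)) (pb Prod.fst a) = a := by
      funext l
      simp [pb, List.map_map, Function.comp_def]
    rwa [e1] at h5
  have hZacy : ∀ z ∈ Metric.sphere (0 : (EuclideanSpace ℝ (Fin (d + 1)))) 1, (AS P).Acy one (Z z) := by
    intro z hz
    have hz0 := hne0 z hz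
    refine ⟨not_one_mem (hZne z hz0), h1 z hz0, fun n hn => ?_⟩
    by_cases hnd : n = d + 1
    · subst hnd
      intro k hk
      obtain ⟨c', hc', hcob⟩ := hsurj z hz0 (d + 1) (by omega) k hk
      have hc'Z : (AS P).Cob (Z z) (d + 1) c' := by
        rcases hrank c' a hc' ha with h | h | h
        · exact h.mono (subset_univ _)
        · exact absurd h hna
        · have := (h.mono (subset_univ (Z z))).add (haZ z hz)
          simpa using this
      have := hcob.add hc'Z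
      simpa using this
    · exact hex z hz0 n hn hnd
  have hWacy : ∀ w ∈ Prod.snd '' WW g, (AS (P × (EuclideanSpace ℝ (Fin (d + 1))))).Acy one (WW g ∩ Prod.snd ⁻¹' {w}) := by
    rintro w ⟨q, hq, rfl⟩
    have hw : q.2 ∈ Metric.sphere (0 : (EuclideanSpace ℝ (Fin (d + 1)))) 1 := by simpa using hq.1
    exact acy_retract (g := Prod.fst) (g' := fun x => (x, q.2))
      (fun x _ => continuous_fst.continuousAt)
      (fun x _ => (Continuous.prodMk_left q.2).continuousAt) (fun q' hq' => fib1 q.2 q' hq')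
      (fun x hx => fib1' q.2 (hnorm _ hw) x hx) (fibr q.2) (fibne _ hw) (hZacy _ hw)
  have hsnd : Prod.snd '' WW g = Metric.sphere (0 : (EuclideanSpace ℝ (Fin (d + 1)))) 1 := by
    ext w
    constructor
    · rintro ⟨q, hq, rfl⟩
      simpa using hq.1
    · intro hw
      obtain ⟨q, hq⟩ := fibne w hw
      exact ⟨q, hq.1, hq.2⟩
  have hWex : (AS (P × (EuclideanSpace ℝ (Fin (d + 1))))).Ex (WW g) (2 * d + 1) := by
    refine vietoris_begle (p := Prod.snd) continuous_snd hW hWacy ?_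
    rw [hsnd, ← sp_eq_sphere]
    exact sp_ex (by omega) le_rfl _ (by omega) (by omega)
  refine top_ne hd S hScomp.isClosed eS eC ha hna ?_
  intro c hc
  have h2 := vb_inj (p := Prod.fst) continuous_fst hW hfst (n := 2 * d + 1) (e := c) (by
    rw [fst_image hg hg0]; exact hc) (hWex _ (coc_pb
      (fun _ _ => continuous_fst.continuousAt) (mapsTo_univ _ _) hc))
  rw [fst_image hg hg0] at h2
  exact h2

end Pool.Agent.H755.TT
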