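import Pool.Agent.H755.TT.Pos

/-! The positive result: tight substantial maps into `ℝ^N` with `N ≤ d + 1` have convex image. -/

set_option autoImplicit false
set_option linter.unusedSectionVars false

namespace Pool.Agent.H755.TT

open Set Topology
open Pool.Agent.Helper775.Tight Pool.Agent.Helper775.Tight.SoftCx
open scoped InnerProductSpace

section geom

variable {P : Type*} [TopologicalSpace P] [CompactSpace P] [Nonempty P]
  {E : Type*} [NormedAddCommGroup E] [InnerProductSpace ℝ E] [FiniteDimensional ℝ E]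

theorem interior_hull_nonempty {f : P → E} (hf : Continuous f)
    (hs : ∀ (z : E) (t : ℝ), z ≠ 0 → ∃ x, ⟪z, f x⟫_ℝ ≠ t) :
    (interior (convexHull ℝ (range f))).Nonempty := by
  rw [(convex_convexHull ℝ (range f)).interior_nonempty_iff_affineSpan_eq_top,
    affineSpan_convexHull]
  by_contra hne
  obtain ⟨x₀⟩ := (inferInstance : Nonempty P)
  have hne' : (affineSpan ℝ (range f)).direction ≠ ⊤ := by
    intro h
    apply hne
    rwa [AffineSubspace.direction_eq_top_iff_of_nonempty] at h
    exact ⟨f x₀, subset_affineSpan ℝ _ (mem_range_self x₀)⟩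
  obtain ⟨z, hz, hz0⟩ := (Submodule.ne_bot_iff _).1
    (fun h => hne' (Submodule.orthogonal_eq_bot_iff.1 h) :
      ((affineSpan ℝ (range f)).direction)ᗮ ≠ ⊥)
  obtain ⟨x, hx⟩ := hs z ⟪z, f x₀⟫_ℝ hz0
  apply hx
  have h1 : f x - f x₀ ∈ (affineSpan ℝ (range f)).direction :=
    AffineSubspace.vsub_mem_direction (subset_affineSpan ℝ _ (mem_range_self x))
      (subset_affineSpan ℝ _ (mem_range_self x₀))
  have h2 := (Submodule.mem_orthogonal' _ _).1 hz _ h1
  rw [inner_sub_right] at h2
  linarith

theorem exists_pos_of_interior {f : P → E} {q : E}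
    (hq : q ∈ interior (convexHull ℝ (range f))) (z : E) (hz : z ≠ 0) :
    ∃ x, 0 < ⟪z, f x - q⟫_ℝ := by
  by_contra hcon
  push Not at hcon
  have hsub : convexHull ℝ (range f) ⊆ {y | ⟪z, y⟫_ℝ ≤ ⟪z, q⟫_ℝ} := by
    refine convexHull_min ?_ ?_
    · rintro _ ⟨x, rfl⟩
      have := hcon x
      rw [inner_sub_right] at this
      change ⟪z, f x⟫_ℝ ≤ ⟪z, q⟫_ℝ
      linarith
    · exact convex_halfSpace_le (innerSL ℝ z).isLinear _
  obtain ⟨ε, hε, hball⟩ := Metric.isOpen_iff.1 isOpen_interior q hq
  have hz' : 0 < ‖z‖ := norm_pos_iff.2 hz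
  have h1 : q + (ε / (2 * ‖z‖)) • z ∈ Metric.ball q ε := by
    rw [Metric.mem_ball, dist_eq_norm, add_sub_cancel_left, norm_smul, Real.norm_eq_abs,
      abs_of_pos (by positivity)]
    have : ε / (2 * ‖z‖) * ‖z‖ = ε / 2 := by field_simp
    rw [this]; linarith
  have h2 := hsub (interior_subset (hball h1))
  have h3 : ⟪z, q + (ε / (2 * ‖z‖)) • z⟫_ℝ ≤ ⟪z, q⟫_ℝ := h2
  rw [inner_add_right, real_inner_smul_right, real_inner_self_eq_norm_sq] at h3
  have : 0 < ε / (2 * ‖z‖) * ‖z‖ ^ 2 := by positivity
  linarith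

/-- if the range contains the interior of its hull it is convex. -/
theorem convex_range_of {f : P → E} (hf : Continuous f)
    (hs : ∀ (z : E) (t : ℝ), z ≠ 0 → ∃ x, ⟪z, f x⟫_ℝ ≠ t)
    (h : interior (convexHull ℝ (range f)) ⊆ range f) : Convex ℝ (range f) := by
  have hcl : IsClosed (range f) := (isCompact_range hf).isClosed
  have h1 : convexHull ℝ (range f) ⊆ closure (interior (convexHull ℝ (range f))) := by
    rw [(convex_convexHull ℝ (range f)).closure_interior_eq_closure_of_nonempty_interior
      (interior_hull_nonempty hf hs)]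
    exact subset_closure
  have h2 : convexHull ℝ (range f) ⊆ range f :=
    h1.trans ((closure_mono h).trans hcl.closure_subset)
  have h3 : convexHull ℝ (range f) = range f := h2.antisymm (subset_convexHull ℝ _)
  rw [← h3]
  exact convex_convexHull ℝ _

end geom

theorem convex_of_preconnected_one {s : Set (EuclideanSpace ℝ (Fin 1))} (hs : IsPreconnected s) :
    Convex ℝ s := by
  let L : EuclideanSpace ℝ (Fin 1) →ₗ[ℝ] ℝ :=
    { toFun := fun x => x 0
      map_add' := fun _ _ => rfl
      map_smul' := fun _ _ => rfl }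
  have hLc : Continuous L := by
    change Continuous fun x : EuclideanSpace ℝ (Fin 1) => x 0
    fun_prop
  have h1 : (L '' s).OrdConnected := (hs.image L hLc.continuousOn).ordConnected
  have h2 : Convex ℝ (L '' s) := h1.convex
  have h3 : s = L ⁻¹' (L '' s) := by
    ext x
    constructor
    · intro hx; exact ⟨x, hx, rfl⟩
    · rintro ⟨y, hy, hyx⟩
      have : y = x := by
        ext i
        have : i = 0 := Subsingleton.elim _ _
        rw [this]; exact hyx
      rw [← this]; exact hy
  rw [h3]
  exact h2.linear_preimage L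

theorem convex_of_subsingleton {E : Type*} [AddCommGroup E] [Module ℝ E] [Subsingleton E]
    (s : Set E) : Convex ℝ s := by
  intro x hx y hy a b _ _ _
  have : a • x + b • y = x := Subsingleton.elim _ _
  rw [this]; exact hx

/-- **Positive part.** -/
theorem convex_of_le {P : Type*} [TopologicalSpace P] {d N : ℕ} (hd : 1 ≤ d)
    [ChartedSpace (EuclideanSpace ℝ (Fin (2 * d))) P] (hP : IsLikeProjectivePlane d P)
    (f : P → EuclideanSpace ℝ (Fin N)) (hf : Continuous f) (hs : Substantial f)
    (ht : TightMap f ∨ CechTightMap f) (hN : N ≤ d + 1) : Convex ℝ (range f) := by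
  obtain ⟨hPc, hPh, S, ⟨eS⟩, ⟨eC⟩⟩ := hP
  haveI : SecondCountableTopology P :=
    ChartedSpace.secondCountable_of_sigmaCompact (EuclideanSpace ℝ (Fin (2 * d))) P
  haveI : TopologicalSpace.MetrizableSpace P := TopologicalSpace.metrizableSpace_of_t3_secondCountable P
  letI : MetricSpace P := TopologicalSpace.metrizableSpaceMetric P
  haveI : Nonempty P := by
    have h1 : (Metric.sphere (0 : EuclideanSpace ℝ (Fin (d + 1))) 1).Nonempty :=
      NormedSpace.sphere_nonempty.2 zero_le_one
    obtain ⟨y, hy⟩ := h1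
    exact ⟨(eS.symm ⟨y, hy⟩).1⟩
  rcases Nat.lt_or_ge N 2 with hN2 | hN2
  · rcases Nat.eq_zero_or_pos N with rfl | hN0
    · exact convex_of_subsingleton _
    · obtain rfl : N = 1 := by omega
      have hScomp : IsCompact S := by
        have : CompactSpace S := eS.symm.compactSpace
        exact isCompact_iff_compactSpace.2 inferInstance
      have hSconn : IsConnected S := by
        have h1 : IsConnected (Metric.sphere (0 : EuclideanSpace ℝ (Fin (d + 1))) 1) := by
          refine isConnected_sphere ?_ 0 zero_le_one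
          rw [rank_eq_card_basis (EuclideanSpace.basisFun (Fin (d + 1)) ℝ).toBasis]
          simp only [Fintype.card_fin]
          exact_mod_cast (by omega : 1 < d + 1)
        rw [isConnected_iff_connectedSpace] at h1 ⊢
        have := h1
        exact eS.symm.surjective.connectedSpace eS.symm.continuous
      have hPconn : ConnectedSpace P :=
        connected_of_complement (D := 2 * d) (by omega) S hSconn hScomp.isClosed eC
      exact convex_of_preconnected_one (isPreconnected_range hf)
  refine convex_range_of hf hs ?_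
  intro q hq
  by_contra hqf
  have hg0 : ∀ x, f x - q ≠ 0 := by
    intro x h
    exact hqf ⟨x, sub_eq_zero.1 h⟩
  refine core_pos hd S eS eC (fun x => f x - q) (hf.sub continuous_const) hN2 hN hg0
    (exists_pos_of_interior hq) ?_
  intro z hz n hn c hc
  have hset : {x | 0 ≤ ⟪z, f x - q⟫_ℝ} = {x | ⟪z, q⟫_ℝ ≤ ⟪z, f x⟫_ℝ} := by
    ext x
    simp only [mem_setOf_eq, inner_sub_right, sub_nonneg]
  rw [hset] at hc ⊢
  rcases ht with ht | ht
  · exact surj_of_sing (m := 2 * d) (fun x => ⟪z, f x⟫_ℝ) (continuous_const.inner hf) _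
      (fun t _ => ht z t hz) n c hc
  · have a2 : IsClosed {x : P | ⟪z, q⟫_ℝ ≤ ⟪z, f x⟫_ℝ} :=
      isClosed_le continuous_const (continuous_const.inner hf)
    exact surj_of_cech a2.isCompact (ht z _ hz) n hn c hc

end Pool.Agent.H755.TT
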