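import Pool.Agent.H755.TT.Surj

/-! Injectivity in singular homology from surjectivity in Alexander-Spanier cohomology, for compact
sets which are retracts of a neighbourhood. -/

set_option autoImplicit false
set_option linter.unusedSectionVars false

namespace Pool.Agent.H755.TT

open Set Topology
open Pool.Agent.Helper775.Tight Pool.Agent.Helper775.Tight.SoftCx

theorem sbPhi_chainIn {X : Type*} [TopologicalSpace X] (V : Set X) (k : ℕ)
    (z : Sc.Sing V k →₀ ℤ) : ChainIn V (sbPhi V k z) := by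
  intro σ hσ
  have h := Sc.supported_map (Sc.smallSet (sbCov {(univ : Set X)} V) k) (sbPhi V k)
    ((Finsupp.supported (ZMod 2) (ZMod 2) {σ : Sing X k | range σ ⊆ V}).restrictScalars ℤ) (by
      intro σ _
      rw [sbPhi_single, Submodule.restrictScalars_mem]
      exact Finsupp.single_mem_supported _ _ (sbIota_range V k σ)) z (by
      rw [Finsupp.mem_supported]
      intro σ _
      exact ⟨_, ⟨univ, rfl, rfl⟩, fun _ _ => mem_univ _⟩)
  rw [Submodule.restrictScalars_mem, Finsupp.mem_supported] at h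
  exact h hσ

theorem two_smul_zero {X : Type*} [TopologicalSpace X] {k : ℕ} (c : Sing X k →₀ ZMod 2) :
    (2 : ℤ) • c = 0 := by
  ext σ
  rw [Finsupp.smul_apply, zsmul_eq_mul]
  have : ((2 : ℤ) : ZMod 2) = 0 := by decide
  rw [this, zero_mul]
  rfl

theorem even_of_sbPhi {X : Type*} [TopologicalSpace X] (V : Set X) (k : ℕ)
    (z : Sc.Sing V k →₀ ℤ) (h : sbPhi V k z = 0) : ∃ y : Sc.Sing V k →₀ ℤ, z = (2 : ℤ) • y := by
  refine ⟨z.mapRange (fun m => m / 2) (by simp), ?_⟩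
  ext σ
  rw [Finsupp.smul_apply, Finsupp.mapRange_apply]
  have h0 : sbPhi V k z (sbIota V k σ) = 0 := by rw [h]; rfl
  rw [sbPhi_apply] at h0
  have h2 : (2 : ℤ) ∣ z σ := by
    have := (ZMod.intCast_zmod_eq_zero_iff_dvd (z σ) 2).1 h0
    exact_mod_cast this
  rw [smul_eq_mul]
  omega

/-- small representatives of cycles. -/
theorem small_rep {X : Type*} [TopologicalSpace X] (𝒞 : Set (Set X)) (V : Set X)
    (hopen : ∀ C ∈ 𝒞, IsOpen C) (hcov : ∀ x ∈ V, ∃ C ∈ 𝒞, x ∈ C) (n : ℕ)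
    (c : Sing X n →₀ ZMod 2) (hcV : ChainIn V c) (hc : IsCycle n c) :
    ∃ (c' : Sing X n →₀ ZMod 2) (e : Sing X (n + 1) →₀ ZMod 2),
      (∀ σ ∈ c'.support, range σ ⊆ V ∧ ∃ C ∈ 𝒞, range σ ⊆ C) ∧ ChainIn V e ∧
        c = c' + bdry X n e := by
  have hopen' : ∀ D ∈ sbCov 𝒞 V, IsOpen D := by
    rintro D ⟨C, hC, rfl⟩
    exact (hopen C hC).preimage continuous_subtype_val
  have hcov' : ∀ x : V, ∃ D ∈ sbCov 𝒞 V, x ∈ D := by
    intro x
    obtain ⟨C, hC, hx⟩ := hcov x x.2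
    exact ⟨_, ⟨C, hC, rfl⟩, hx⟩
  obtain ⟨z, hz⟩ := sb_lift V n c hcV
  have hsm := sbPhi_small 𝒞 V n _ (Sc.rho_small (sbCov 𝒞 V) hopen' hcov' n z)
  rcases n with _ | k
  · refine ⟨c, 0, ?_, ?_, ?_⟩
    · rw [← hz]; exact hsm
    · intro σ hσ; simp at hσ
    · simp
  · refine ⟨sbPhi V (k + 1) (Sc.rho (sbCov 𝒞 V) (k + 1) z),
      sbPhi V (k + 2) (Sc.DD (sbCov 𝒞 V) (k + 1) z), hsm, sbPhi_chainIn V _ _, ?_⟩
    have h0 : sbPhi V k (Sc.sbd V k z) = 0 := by
      rw [← sbPhi_bdry, hz]; exact hc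
    obtain ⟨y, hy⟩ := even_of_sbPhi V k _ h0
    rw [Sc.rho_succ, map_sub, map_sub, sbPhi_bdry, hy, map_smul, map_smul, two_smul_zero, hz]
    simp

/-- the set `Z` is a retract of a neighbourhood. -/
def RetrNbhd {P : Type*} [TopologicalSpace P] (Z : Set P) : Prop :=
  ∃ (U : Set P) (r : P → P), IsOpen U ∧ Z ⊆ U ∧ ContinuousOn r U ∧ MapsTo r U Z ∧ ∀ x ∈ Z, r x = x

section

variable {P : Type*} [MetricSpace P]

theorem theta_cob {Z : Set P} {n : ℕ} {c : Ch P} (h : (AS P).Cob Z n c) :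
    (Sg P).Cob Z n (theta c) := by
  obtain ⟨b, hb⟩ := h
  refine ⟨theta b, fun z hz => ?_⟩
  have h1 := Theta.mem z n _ (hb z hz)
  have e1 : theta c - (Sg P).D (theta b) = Theta.f (c - (AS P).D b) := by
    change theta c - sdf (theta b) = theta (c - dd b)
    rw [theta_sub, sdf_theta]
  rw [e1]
  exact h1

variable [CompactSpace P] {m : ℕ} [ChartedSpace (EuclideanSpace ℝ (Fin m)) P]

include m in
theorem hinj_of_surj {Z : Set P} (hZ : IsCompact Z) (hs : Surj Z) (hr : RetrNbhd Z) :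
    HomologyInjective Z := by
  classical
  intro n c hcZ hcyc hbd
  obtain ⟨b, hb⟩ := hbd
  by_contra hno
  obtain ⟨U, r, hU, hZU, hrc, hrZ, hrid⟩ := hr
  -- a functional detecting `c`
  set BZ : Submodule (ZMod 2) (Sing P n →₀ ZMod 2) :=
    (Finsupp.supported (ZMod 2) (ZMod 2) {σ : Sing P (n + 1) | range σ ⊆ Z}).map (bdry P n) with hBZ
  have hcB : c ∉ BZ := by
    rintro ⟨w, hw, hwc⟩
    exact hno ⟨w, fun σ hσ => (Finsupp.mem_supported _ _).1 hw (by exact_mod_cast hσ), hwc⟩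
  obtain ⟨φ, hφc, hφB⟩ := Submodule.exists_le_ker_of_notMem hcB
  have hφbd : ∀ e : Sing P (n + 1) →₀ ZMod 2, ChainIn Z e → φ (bdry P n e) = 0 := by
    intro e he
    have : bdry P n e ∈ BZ := Submodule.mem_map_of_mem
      ((Finsupp.mem_supported _ _).2 (fun σ hσ => he σ (by exact_mod_cast hσ)))
    exact LinearMap.mem_ker.1 (hφB this)
  -- composition with the retraction
  let rc : ∀ (k : ℕ) (σ : Sing P k), range σ ⊆ U → Sing P k := fun k σ hσ =>
    ⟨fun t => r (σ t), hrc.comp_continuous σ.continuous fun t => hσ ⟨t, rfl⟩⟩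
  let s : SCh P := Function.update 0 n
    (fun σ => if h : range σ ⊆ U then φ (Finsupp.single (rc n σ h) 1) else 0)
  have hsn : ∀ (σ : Sing P n) (h : range σ ⊆ U), s n σ = φ (Finsupp.single (rc n σ h) 1) := by
    intro σ h
    simp only [s, Function.update_self]
    rw [dif_pos h]
  have hsZ : ∀ σ : Sing P n, range σ ⊆ Z → s n σ = φ (Finsupp.single σ 1) := by
    intro σ h
    rw [hsn σ (h.trans hZU)]
    congr 2
    ext t
    exact hrid _ (h ⟨t, rfl⟩)
  have hscoc : (Sg P).Coc Z (n + 1) s := by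
    intro z hz
    refine ⟨U, hU.mem_nhds (hZU hz), fun σ hσ => ?_⟩
    change ∑ i : Fin (n + 2), s n (sface n i σ) = 0
    have hrng : ∀ i, range (sface n i σ) ⊆ U := by
      rintro i _ ⟨t, rfl⟩
      exact hσ ⟨_, rfl⟩
    have h1 : ∀ i, s n (sface n i σ) = φ (Finsupp.single (sface n i (rc (n + 1) σ hσ)) 1) := by
      intro i
      rw [hsn _ (hrng i)]
      rfl
    simp only [h1]
    rw [← map_sum, ← sx_bdry_single]
    refine hφbd _ ?_
    intro τ hτ
    have : τ = rc (n + 1) σ hσ := by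
      have := Finsupp.support_single_subset hτ
      simpa using this
    rw [this]
    rintro _ ⟨t, rfl⟩
    exact hrZ (hσ ⟨t, rfl⟩)
  -- extend
  obtain ⟨c₁, hc₁, hc₁'⟩ := theta_surj (m := m) hZ hscoc
  obtain ⟨c', hc', hc''⟩ := hs (n + 1) (by omega) c₁ hc₁
  obtain ⟨t, ht⟩ : (Sg P).Cob Z (n + 1) (s - theta c') := by
    have := hc₁'.add (theta_cob hc'')
    rw [theta_sub] at this
    simpa using this
  have hθ : ∀ z : P, ∃ W ∈ 𝓝 z, ∀ σ : Sing P (n + 1), range σ ⊆ W →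
      ∑ i : Fin (n + 2), theta c' n (sface n i σ) = 0 := by
    intro z
    obtain ⟨W, hW, h⟩ := Theta.mem z (n + 2) _ (hc' z (mem_univ z))
    refine ⟨W, hW, fun σ hσ => ?_⟩
    have h2 := h σ hσ
    have h3 : sdf (theta c') (n + 1) σ = theta (dd c') (n + 1) σ := by rw [sdf_theta]
    change sdf (theta c') (n + 1) σ = 0
    rw [h3]; exact h2
  -- the cover
  set 𝒞 : Set (Set P) := {W | IsOpen W ∧
    (∀ σ : Sing P (n + 1), range σ ⊆ W → ∑ i : Fin (n + 2), theta c' n (sface n i σ) = 0) ∧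
    ((∀ σ : Sing P n, range σ ⊆ W → (s - theta c' - sdf t) n σ = 0) ∨ W ∩ Z = ∅)} with h𝒞
  have hCo : ∀ C ∈ 𝒞, IsOpen C := fun C hC => hC.1
  have hCcov : ∀ x : P, ∃ C ∈ 𝒞, x ∈ C := by
    intro x
    obtain ⟨W, hW, h⟩ := hθ x
    obtain ⟨W', hW'W, hW'o, hxW'⟩ := mem_nhds_iff.1 hW
    by_cases hx : x ∈ Z
    · obtain ⟨V, hV, h'⟩ := ht x hx
      obtain ⟨V', hV'V, hV'o, hxV'⟩ := mem_nhds_iff.1 hV
      refine ⟨W' ∩ V', ⟨hW'o.inter hV'o, ?_, Or.inl ?_⟩, hxW', hxV'⟩
      · exact fun σ hσ => h σ (hσ.trans (inter_subset_left.trans hW'W))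
      · exact fun σ hσ => h' σ (hσ.trans (inter_subset_right.trans hV'V))
    · refine ⟨W' ∩ Zᶜ, ⟨hW'o.inter hZ.isClosed.isOpen_compl, ?_, Or.inr ?_⟩, hxW', hx⟩
      · exact fun σ hσ => h σ (hσ.trans (inter_subset_left.trans hW'W))
      · ext y
        simp only [mem_inter_iff, mem_compl_iff, mem_empty_iff_false, iff_false, not_and]
        rintro ⟨_, h1⟩ h2
        exact h1 h2
  obtain ⟨c₂, e, hc₂, he, hce⟩ := small_rep 𝒞 Z hCo (fun x _ => hCcov x) n c hcZ hcyc
  -- `c₂` bounds a small chain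
  have hc₂b : ∃ w, bdry P n w = c₂ := by
    refine ⟨b - e, ?_⟩
    rw [map_sub, hb, hce]; abel
  obtain ⟨w, hw⟩ := hc₂b
  obtain ⟨b', hb'1, hb'2⟩ := small_bound 𝒞 univ hCo (fun x _ => hCcov x) n c₂
    (fun σ hσ => ⟨subset_univ _, (hc₂ σ hσ).2⟩) w (fun σ _ => subset_univ _) hw
  have hφ2 : φ c₂ = φ c := by
    rw [hce, map_add, hφbd e he, add_zero]
  -- functionals
  set L : (∀ _ : Sing P n, ZMod 2) → (Sing P n →₀ ZMod 2) →ₗ[ZMod 2] ZMod 2 :=
    fun f => Finsupp.linearCombination (ZMod 2) f with hL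
  have hL1 : ∀ f τ, L f (Finsupp.single τ 1) = f τ := by
    intro f τ; simp [hL, Finsupp.linearCombination_single]
  have hLapp : ∀ f x, L f x = ∑ τ ∈ x.support, x τ * f τ := by
    intro f x
    simp [hL, Finsupp.linearCombination_apply, Finsupp.sum]
  have key1 : L (s n) c₂ = φ c₂ := by
    have : φ c₂ = ∑ τ ∈ c₂.support, c₂ τ * φ (Finsupp.single τ 1) := by
      conv_lhs => rw [← Finsupp.sum_single c₂, Finsupp.sum, map_sum]
      refine Finset.sum_congr rfl fun τ _ => ?_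
      have : Finsupp.single τ (c₂ τ) = (c₂ τ) • Finsupp.single τ (1 : ZMod 2) := by simp
      rw [this, map_smul, smul_eq_mul]
    rw [this, hLapp]
    refine Finset.sum_congr rfl fun τ hτ => ?_
    rw [hsZ τ (hc₂ τ hτ).1]
  have key2 : L (s n) c₂ = L (theta c' n) c₂ + L (sdf t n) c₂ := by
    rw [hLapp, hLapp, hLapp, ← Finset.sum_add_distrib]
    refine Finset.sum_congr rfl fun τ hτ => ?_
    obtain ⟨h1, C, hC, hτC⟩ := hc₂ τ hτ
    rcases hC.2.2 with h2 | h2
    · have h3 := h2 τ hτC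
      have h4 : s n τ - theta c' n τ - sdf t n τ = 0 := h3
      have h5 : s n τ = theta c' n τ + sdf t n τ := by linear_combination h4
      rw [h5]; ring
    · exfalso
      have h3 : τ (stdSimplex.vertex 0) ∈ C ∩ Z := ⟨hτC ⟨_, rfl⟩, h1 ⟨_, rfl⟩⟩
      rw [h2] at h3
      exact h3
  have key3 : L (theta c' n) c₂ = 0 := by
    rw [← hb'2]
    apply sx_bdry_zero
    intro σ hσ
    simp only [hL1]
    obtain ⟨_, C, hC, hσC⟩ := hb'1 σ hσ
    exact hC.2.1 σ hσC
  have hcyc2 : IsCycle n c₂ := by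
    rcases n with _ | k
    · trivial
    · change bdry P k c₂ = 0
      rw [← hb'2]
      have h1 : bdry P k (bdry P (k + 1) b') = 0 := by
        have hz := sb_lift univ (k + 2) b' (fun σ _ => subset_univ _)
        obtain ⟨z, hz⟩ := hz
        rw [← hz, sbPhi_bdry, sbPhi_bdry, Sc.sbd_sbd, map_zero]
      exact h1
  have key4 : L (sdf t n) c₂ = 0 := by
    rcases n with _ | k
    · rw [hLapp]
      exact Finset.sum_eq_zero fun τ _ => by
        change c₂ τ * 0 = 0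
        rw [mul_zero]
    · have h1 : L (sdf t (k + 1)) = (Finsupp.linearCombination (ZMod 2) (t k)) ∘ₗ bdry P k := by
        apply Finsupp.lhom_ext'
        intro σ
        apply LinearMap.ext_ring
        simp only [LinearMap.comp_apply, Finsupp.lsingle_apply]
        rw [hL1, sx_bdry_single, map_sum]
        simp only [Finsupp.linearCombination_single, one_smul]
        rfl
      rw [h1, LinearMap.comp_apply]
      have h2 : bdry P k c₂ = 0 := hcyc2
      rw [h2, map_zero]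
  apply hφc
  rw [← hφ2, ← key1, key2, key3, key4, add_zero]

end

end Pool.Agent.H755.TT
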