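import Pool.Agent.H755.TT.TopNe

/-! Surjectivity of restriction in Alexander-Spanier cohomology. -/

set_option autoImplicit false
set_option linter.unusedSectionVars false

namespace Pool.Agent.H755.TT

open Set Topology
open Pool.Agent.Helper775.Tight Pool.Agent.Helper775.Tight.SoftCx
open scoped InnerProductSpace

/-- the restriction to (germs along) `Z` is surjective in all degrees. -/
def Surj {P : Type*} [MetricSpace P] (Z : Set P) : Prop :=
  ∀ n, 1 ≤ n → ∀ c, (AS P).Coc Z n c → ∃ c', (AS P).Coc univ n c' ∧ (AS P).Cob Z n (c - c')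

section

variable {P : Type*} [MetricSpace P]

theorem surj_empty : Surj (∅ : Set P) := fun n _ c _ =>
  ⟨0, coc_zero _ _, Cob.of_mem (by simp)⟩

theorem surj_univ : Surj (univ : Set P) := fun n _ c hc =>
  ⟨c, hc, by rw [sub_self]; exact cob_zero _ _⟩

theorem surj_of_acy {Z : Set P} (h : (AS P).Acy one Z) : Surj Z := by
  intro n hn c hc
  rcases Nat.lt_or_ge n 2 with h2 | h2
  · obtain rfl : n = 1 := by omega
    rcases h.2.1 c hc with h3 | h3
    · exact ⟨0, coc_zero _ _, Cob.of_mem (by simpa using h3)⟩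
    · exact ⟨one, fun z _ => one_D_mem z, Cob.of_mem h3⟩
  · exact ⟨0, coc_zero _ _, by rw [sub_zero]; exact h.2.2 n h2 c hc⟩

theorem surj_singleton (p : P) : Surj ({p} : Set P) := surj_of_acy (acy_singleton p)

/-- the set `Z` can be deformed in itself into the subset `C`. -/
def Deform (Z C : Set P) : Prop :=
  C ⊆ Z ∧ ∃ H : ℝ → P → P,
    (∀ t ∈ Icc (0 : ℝ) 1, ∀ x ∈ Z, ContinuousAt (fun p : ℝ × P => H p.1 p.2) (t, x)) ∧
    (∀ t ∈ Icc (0 : ℝ) 1, ∀ x ∈ Z, H t x ∈ Z) ∧ (∀ x ∈ Z, H 0 x = x) ∧ ∀ x ∈ Z, H 1 x ∈ C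

theorem surj_of_deform {Z C : Set P} (hZ : IsCompact Z) (hd : Deform Z C) (hC : Surj C) :
    Surj Z := by
  obtain ⟨hCZ, H, hH, hHZ, h0, h1⟩ := hd
  have m0 : (0 : ℝ) ∈ Icc (0 : ℝ) 1 := left_mem_Icc.2 zero_le_one
  have m1 : (1 : ℝ) ∈ Icc (0 : ℝ) 1 := right_mem_Icc.2 zero_le_one
  have hcont : ∀ t ∈ Icc (0 : ℝ) 1, ∀ x ∈ Z, ContinuousAt (H t) x := by
    intro t ht x hx
    have h2 : ContinuousAt (fun y : P => (t, y)) x := by fun_prop
    exact ContinuousAt.comp (x := x) (f := fun y : P => (t, y))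
      (g := fun p : ℝ × P => H p.1 p.2) (hH t ht x hx) h2
  intro n hn c hc
  obtain ⟨c', hc', hcob⟩ := hC n hn c (hc.mono hCZ)
  refine ⟨c', hc', ?_⟩
  have hk : (AS P).Coc Z n (c - c') := hc.sub (hc'.mono (subset_univ _))
  have a1 := cob_pb_sub (F := Z) (g₁ := id) (g₂ := H 0) (fun x _ => continuousAt_id)
    (hcont 0 m0) (fun x hx => (h0 x hx).symm) (mapsTo_id Z) hk
  have a2 := cob_pb_homotopy hZ H hH hHZ hk
  have a3 := cob_pb (F := Z) (g := H 1) (hcont 1 m1) (F' := C) (fun x hx => h1 x hx) hcob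
  have e1 : pb (id : P → P) (c - c') = c - c' := by funext l; simp [pb]
  rw [e1] at a1
  have := (a1.add a2).add a3
  simpa using this

/-- from germs to the intrinsic formulation. -/
theorem cech_of_surj {Z : Set P} (hZ : IsCompact Z) (h : Surj Z) : CechSurjective Z := by
  intro q c hc
  rcases Z.eq_empty_or_nonempty with rfl | hne
  · exact ⟨0, fun y => ⟨univ, Filter.univ_mem, fun l hl hx => by
      rw [asD_eq, dd_apply (by omega)]
      have : d (0 : List P → ZMod 2) = 0 := by
        have := d_add (0 : List P → ZMod 2) 0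
        simpa using this
      rw [this]; rfl⟩, 0, fun y => y.2.elim⟩
  obtain ⟨ρ, hρ1, hρ2, hρ3⟩ := exists_retraction hZ hne
  rw [asD_eq, locallyZero_iff] at hc
  have hg : ∀ x ∈ Z, ContinuousAt (fun x => (⟨ρ x, hρ1 x⟩ : Z)) x := by
    intro x hx
    rw [ContinuousAt, tendsto_subtype_rng]
    exact hρ3 x hx
  have hval : ∀ x ∈ (univ : Set Z), ContinuousAt (Subtype.val : Z → P) x := fun x _ =>
    continuous_subtype_val.continuousAt
  have hcZ : (AS Z).Coc univ (q + 1) c := hc
  have h1 : (AS P).Coc Z (q + 1) (pb (fun x => (⟨ρ x, hρ1 x⟩ : Z)) c) :=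
    coc_pb hg (fun x _ => mem_univ _) hcZ
  obtain ⟨c', hc', b, hb⟩ := h (q + 1) (by omega) _ h1
  refine ⟨c', ?_, pb Subtype.val b, ?_⟩
  · rw [asD_eq, locallyZero_iff]; exact hc'
  · have e : (fun l : List Z => c l - c' (l.map (↑)) - asD (pb Subtype.val b) l) =
        pb Subtype.val (pb (fun x => (⟨ρ x, hρ1 x⟩ : Z)) c - c' - (AS P).D b) := by
      funext l
      have e1 : List.map (fun x => (⟨ρ x, hρ1 x⟩ : Z)) (List.map Subtype.val l) = l := by
        rw [List.map_map]
        conv_rhs => rw [← List.map_id l]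
        refine List.map_congr_left fun x _ => ?_
        exact Subtype.ext (hρ2 x.1 x.2)
      have e2 : asD (pb Subtype.val b) l = dd b (l.map Subtype.val) := by
        rw [asD_eq, dd_pb]; rfl
      rw [e2]
      change c l - c' (l.map Subtype.val) - dd b (l.map Subtype.val) =
        c (List.map (fun x => (⟨ρ x, hρ1 x⟩ : Z)) (List.map Subtype.val l)) -
          c' (l.map Subtype.val) - dd b (l.map Subtype.val)
      rw [e1]
    rw [e, locallyZero_iff]
    intro z _
    exact pb_mem_Nz (hval z (mem_univ z)) (hb z.1 z.2)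

end

/-- the middle sphere of a cell decomposition `P = S^d ∪ ℝ^{2d}`, `d ≥ 2`. -/
theorem surj_sphere {P : Type*} [MetricSpace P] [CompactSpace P] {d : ℕ} (hd : 2 ≤ d)
    (S : Set P) (eS : S ≃ₜ Metric.sphere (0 : EuclideanSpace ℝ (Fin (d + 1))) 1)
    (eC : (Sᶜ : Set P) ≃ₜ EuclideanSpace ℝ (Fin (2 * d))) : Surj S := by
  have hScomp : IsCompact S := by
    have : CompactSpace S := eS.symm.compactSpace
    exact isCompact_iff_compactSpace.2 inferInstance
  have hS : IsClosed S := hScomp.isClosed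
  have hSne : S.Nonempty := by
    have h1 : (Metric.sphere (0 : EuclideanSpace ℝ (Fin (d + 1))) 1).Nonempty :=
      NormedSpace.sphere_nonempty.2 zero_le_one
    obtain ⟨y, hy⟩ := h1
    exact ⟨(eS.symm ⟨y, hy⟩).1, (eS.symm ⟨y, hy⟩).2⟩
  intro n hn c hc
  by_cases h1 : n = 1
  · subst h1
    have := coc_one_of_injOn hScomp hSne (sphMap_cont S eS) (sphMap_inj S eS) (by
      rw [sphMap_image]
      exact sp_connected (by omega) le_rfl) c hc
    rcases this with h3 | h3
    · exact ⟨0, coc_zero _ _, Cob.of_mem (by simpa using h3)⟩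
    · exact ⟨one, fun z _ => one_D_mem z, Cob.of_mem h3⟩
  by_cases h2 : n = d + 1
  · subst h2
    obtain ⟨ψ, φ, hcell⟩ := exists_cell S hS eC
    obtain ⟨U, hU, hSU, hUc⟩ := hc.isOpen
    obtain ⟨R, hR, hRU⟩ := hcell.exists_radius hU hSU
    have hR0 : 0 < R := by linarith
    set K : Set P := ψ '' Metric.closedBall 0 R with hK
    set W : Set P := (ψ '' Metric.ball 0 R)ᶜ with hW
    have hKW : W ∩ K = ψ '' Metric.sphere 0 R := by rw [inter_comm]; exact hcell.inter_eq R
    have hKc : IsCompact K := hcell.isCompact_K R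
    have hWc : IsClosed W := hcell.isClosed_W R
    have hcW : (AS P).Coc W (d + 1) c := hUc.mono hRU
    obtain ⟨b, hb⟩ := hcell.ex_sph hR0 (by omega) (n := d + 1) (by omega) (by omega) c
      (hcW.mono (by rw [← hKW]; exact inter_subset_left))
    obtain ⟨m, hm1, hm2⟩ := (AS P).soft (d + 1) (c - (AS P).D b) W K hWc hKc.isClosed (by
      rw [hKW]; exact hb)
    refine ⟨c - m, ?_, ?_⟩
    · intro z _
      have hz : z ∈ K ∪ W := by rw [← Cell.union_eq]; exact mem_univ z
      rcases hz with hz | hz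
      · have e1 : (AS P).D (c - m) = (AS P).D (c - (AS P).D b - m) + (AS P).D ((AS P).D b) := by
          simp only [map_sub]; abel
        rw [e1]
        exact add_mem ((AS P).D_mem z _ _ (hm2 z hz)) ((AS P).DD_mem z _ b)
      · rw [map_sub]
        exact sub_mem (hcW z hz) ((AS P).D_mem z _ _ (hm1 z hz))
    · have e1 : c - (c - m) = m := by abel
      rw [e1]
      exact Cob.of_mem fun z hz => hm1 z (hcell.S_sub R hz)
  · exact ⟨0, coc_zero _ _, by
      rw [sub_zero]
      exact ex_sphere_image (by omega) S hS eS n (by omega) h2 c hc⟩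

end Pool.Agent.H755.TT
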