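import Pool.Agent.H755.TT.Cone2

/-! A manifold like a projective plane with non-zero middle cohomology has non-zero top cohomology. -/

set_option autoImplicit false
set_option linter.unusedSectionVars false

namespace Pool.Agent.H755.TT

open Set Topology
open Pool.Agent.Helper775.Tight Pool.Agent.Helper775.Tight.SoftCx

/-- the cell structure near the complement of `S`. -/
structure Cell {P : Type*} [MetricSpace P] {D : ℕ} (S : Set P)
    (ψ : EuclideanSpace ℝ (Fin D) → P) (φ : P → EuclideanSpace ℝ (Fin D)) : Prop where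
  ψc : Continuous ψ
  ψS : ∀ y, ψ y ∈ Sᶜ
  ψo : IsOpenMap ψ
  φψ : ∀ y, φ (ψ y) = y
  ψφ : ∀ x ∈ Sᶜ, ψ (φ x) = x
  φc : ContinuousOn φ Sᶜ

theorem exists_cell {P : Type*} [MetricSpace P] {D : ℕ} (S : Set P) (hS : IsClosed S)
    (e : (Sᶜ : Set P) ≃ₜ EuclideanSpace ℝ (Fin D)) : ∃ ψ φ, Cell (D := D) S ψ φ := by
  classical
  set ψ : EuclideanSpace ℝ (Fin D) → P := fun y => (e.symm y : P) with hψ
  have hψc : Continuous ψ := continuous_subtype_val.comp e.symm.continuous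
  have hψS : ∀ y, ψ y ∈ Sᶜ := fun y => (e.symm y).2
  have hψo : IsOpenMap ψ := by
    have h1 : IsOpenMap (Subtype.val : (Sᶜ : Set P) → P) := hS.isOpen_compl.isOpenMap_subtype_val
    exact h1.comp e.symm.isOpenMap
  set φ : P → EuclideanSpace ℝ (Fin D) := fun x => if h : x ∈ Sᶜ then e ⟨x, h⟩ else 0 with hφ
  refine ⟨ψ, φ, hψc, hψS, hψo, ?_, ?_, ?_⟩
  · intro y
    have h1 : ψ y ∈ Sᶜ := hψS y
    simp only [hφ]
    rw [dif_pos h1]
    have h2 : (⟨ψ y, h1⟩ : (Sᶜ : Set P)) = e.symm y := Subtype.ext rfl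
    rw [h2, e.apply_symm_apply]
  · intro x hx
    simp only [hφ, hψ]
    rw [dif_pos hx, e.symm_apply_apply]
  · rw [continuousOn_iff_continuous_domRestrict]
    have : domRestrict (Sᶜ : Set P) φ = e := by
      funext x
      simp only [domRestrict, hφ]
      rw [dif_pos x.2]
    rw [this]
    exact e.continuous

namespace Cell

variable {P : Type*} [MetricSpace P] [CompactSpace P] {D : ℕ} {S : Set P}
    {ψ : EuclideanSpace ℝ (Fin D) → P} {φ : P → EuclideanSpace ℝ (Fin D)} (hc : Cell S ψ φ)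

include hc

theorem φi : InjOn φ Sᶜ := by
  intro x hx y hy hxy
  rw [← hc.ψφ x hx, ← hc.ψφ y hy, hxy]

theorem ψi : Function.Injective ψ := by
  intro x y h
  rw [← hc.φψ x, ← hc.φψ y, h]

theorem exists_radius {U : Set P} (hU : IsOpen U) (hSU : S ⊆ U) :
    ∃ R : ℝ, 1 ≤ R ∧ (ψ '' Metric.ball 0 R)ᶜ ⊆ U := by
  have hUc : IsCompact (Uᶜ : Set P) := hU.isClosed_compl.isCompact
  have h1 : IsCompact (φ '' Uᶜ) :=
    hUc.image_of_continuousOn (hc.φc.mono (compl_subset_compl.2 hSU))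
  obtain ⟨r, hr⟩ := h1.isBounded.subset_ball 0
  refine ⟨max r 1, le_max_right _ _, fun x hx => ?_⟩
  by_contra hxU
  apply hx
  have hxS : x ∈ Sᶜ := fun h => hxU (hSU h)
  exact ⟨φ x, Metric.ball_subset_ball (le_max_left _ _) (hr (mem_image_of_mem φ hxU)), hc.ψφ x hxS⟩

theorem isCompact_K (R : ℝ) : IsCompact (ψ '' Metric.closedBall 0 R) :=
  (isCompact_closedBall _ _).image hc.ψc

theorem isClosed_W (R : ℝ) : IsClosed ((ψ '' Metric.ball 0 R)ᶜ) :=
  (hc.ψo _ Metric.isOpen_ball).isClosed_compl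

omit [CompactSpace P] hc in
theorem union_eq (R : ℝ) : (univ : Set P) = ψ '' Metric.closedBall 0 R ∪ (ψ '' Metric.ball 0 R)ᶜ := by
  symm
  rw [eq_univ_iff_forall]
  intro x
  by_cases hx : x ∈ ψ '' Metric.ball 0 R
  · left
    exact image_mono Metric.ball_subset_closedBall hx
  · exact Or.inr hx

theorem inter_eq (R : ℝ) : ψ '' Metric.closedBall 0 R ∩ (ψ '' Metric.ball 0 R)ᶜ =
    ψ '' Metric.sphere 0 R := by
  ext x
  constructor
  · rintro ⟨⟨y, hy, rfl⟩, h2⟩
    refine ⟨y, ?_, rfl⟩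
    rw [mem_sphere_zero_iff_norm]
    rw [mem_closedBall_zero_iff] at hy
    by_contra hne
    apply h2
    refine ⟨y, ?_, rfl⟩
    rw [mem_ball_zero_iff]
    exact lt_of_le_of_ne hy hne
  · rintro ⟨y, hy, rfl⟩
    rw [mem_sphere_zero_iff_norm] at hy
    refine ⟨⟨y, by rw [mem_closedBall_zero_iff, hy], rfl⟩, ?_⟩
    rintro ⟨z, hz, hzy⟩
    rw [hc.ψi hzy, mem_ball_zero_iff, hy] at hz
    exact lt_irrefl _ hz

theorem K_sub (R : ℝ) : ψ '' Metric.closedBall 0 R ⊆ Sᶜ := by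
  rintro _ ⟨y, _, rfl⟩; exact hc.ψS y

theorem S_sub (R : ℝ) : S ⊆ (ψ '' Metric.ball 0 R)ᶜ := by
  rintro x hx ⟨y, _, rfl⟩; exact hc.ψS y hx

theorem ex_K {R : ℝ} (hR : 0 < R) {n : ℕ} (hn : 2 ≤ n) :
    (AS P).Ex (ψ '' Metric.closedBall 0 R) n := by
  refine ex_of_injOn (hc.isCompact_K R) (hc.φc.mono (hc.K_sub R)) (hc.φi.mono (hc.K_sub R)) ?_
  have : φ '' (ψ '' Metric.closedBall 0 R) = Metric.closedBall 0 R := by
    rw [image_image]
    simp only [hc.φψ, image_id']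
  rw [this]
  exact (closedBall_acy hR).2.2 _ hn

theorem sphere_sub (R : ℝ) : ψ '' Metric.sphere 0 R ⊆ Sᶜ := by
  rintro _ ⟨y, _, rfl⟩; exact hc.ψS y

theorem scaled_image {R : ℝ} (hR : 0 < R) :
    (fun x => R⁻¹ • φ x) '' (ψ '' Metric.sphere 0 R) = Sp D D := by
  rw [image_image]
  simp only [hc.φψ]
  ext x
  constructor
  · rintro ⟨y, hy, rfl⟩
    rw [mem_sphere_zero_iff_norm] at hy
    refine ⟨?_, fun i hi => absurd i.2 (by omega)⟩
    rw [norm_smul, norm_inv, Real.norm_eq_abs, abs_of_pos hR, hy, inv_mul_cancel₀ hR.ne']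
  · rintro ⟨hx, _⟩
    refine ⟨R • x, ?_, ?_⟩
    · rw [mem_sphere_zero_iff_norm, norm_smul, Real.norm_eq_abs, abs_of_pos hR, hx, mul_one]
    · simp only [smul_smul, inv_mul_cancel₀ hR.ne', one_smul]

theorem scaled_cont (R : ℝ) : ContinuousOn (fun x => R⁻¹ • φ x) (ψ '' Metric.sphere 0 R) :=
  (continuous_const_smul (R⁻¹ : ℝ)).comp_continuousOn (hc.φc.mono (hc.sphere_sub R))

theorem scaled_inj {R : ℝ} (hR : 0 < R) : InjOn (fun x => R⁻¹ • φ x) (ψ '' Metric.sphere 0 R) := by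
  intro x hx y hy hxy
  apply hc.φi (hc.sphere_sub R hx) (hc.sphere_sub R hy)
  exact smul_right_injective _ (inv_ne_zero hR.ne') hxy

theorem isCompact_sph (R : ℝ) : IsCompact (ψ '' Metric.sphere 0 R) :=
  (isCompact_sphere _ _).image hc.ψc

theorem ex_sph {R : ℝ} (hR : 0 < R) (hD : 1 ≤ D) {n : ℕ} (hn : 2 ≤ n) (hnD : n ≠ D) :
    (AS P).Ex (ψ '' Metric.sphere 0 R) n := by
  refine ex_of_injOn (hc.isCompact_sph R) (hc.scaled_cont R) (hc.scaled_inj hR) ?_
  rw [hc.scaled_image hR]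
  exact sp_ex hD le_rfl n hn hnD

theorem exists_top (hD : 2 ≤ D) : ∃ s : Ch P, (AS P).Coc (ψ '' Metric.sphere 0 1) D s ∧
    ¬ (AS P).Cob (ψ '' Metric.sphere 0 1) D s := by
  obtain ⟨e, he, hne⟩ := sp_top (M := D) (k := D) hD le_rfl
  have hne' : (ψ '' Metric.sphere (0 : EuclideanSpace ℝ (Fin D)) 1).Nonempty := by
    refine Set.Nonempty.image _ ⟨EuclideanSpace.single ⟨0, by omega⟩ (1 : ℝ), ?_⟩
    simp
  obtain ⟨g, g', h1, h2, h3, h4⟩ :=
    exists_ext (hc.isCompact_sph 1) hne' (hc.scaled_cont 1) (hc.scaled_inj one_pos)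
  rw [hc.scaled_image one_pos] at h2
  have hm : MapsTo g (ψ '' Metric.sphere 0 1) (Sp D D) := by
    intro x hx
    rw [h3 x hx, ← hc.scaled_image one_pos]
    exact mem_image_of_mem _ hx
  have hm' : MapsTo g' (Sp D D) (ψ '' Metric.sphere 0 1) := by
    intro y hy
    rw [← hc.scaled_image one_pos] at hy
    obtain ⟨x, hx, rfl⟩ := hy
    rw [h4 x hx]; exact hx
  refine ⟨pb g e, coc_pb h1 hm he, fun hcob => hne ?_⟩
  have hgg : ∀ y ∈ Sp D D, g (g' y) = y := by
    intro y hy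
    rw [← hc.scaled_image one_pos] at hy
    obtain ⟨x, hx, rfl⟩ := hy
    rw [h4 x hx, h3 x hx]
  have r1 := cob_retract h2 h1 hm' hm hgg he
  have := r1.add (cob_pb h2 hm' hcob)
  simpa using this

/-- a class on the complement of the unit ball which vanishes far away vanishes on the sphere. -/
theorem cob_sph_of_far {R : ℝ} (hR : 1 ≤ R) {n : ℕ} {v : Ch P}
    (hv : (AS P).Coc ((ψ '' Metric.ball 0 1)ᶜ) n v)
    (hv' : (AS P).Cob (ψ '' Metric.sphere 0 R) n v) :
    (AS P).Cob (ψ '' Metric.sphere 0 1) n v := by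
  have hR0 : 0 < R := by linarith
  let H : ℝ → P → P := fun t x => ψ ((1 + t * (R - 1)) • φ x)
  have hSo : IsOpen (Sᶜ : Set P) := by
    have : (Sᶜ : Set P) = range ψ := by
      ext x
      constructor
      · intro hx; exact ⟨φ x, hc.ψφ x hx⟩
      · rintro ⟨y, rfl⟩; exact hc.ψS y
    rw [this, ← image_univ]
    exact hc.ψo _ isOpen_univ
  have hφat : ∀ x ∈ (Sᶜ : Set P), ContinuousAt φ x := fun x hx =>
    hc.φc.continuousAt (hSo.mem_nhds hx)
  have hHc : ∀ t ∈ Icc (0 : ℝ) 1, ∀ x ∈ ψ '' Metric.sphere 0 1,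
      ContinuousAt (fun p : ℝ × P => H p.1 p.2) (t, x) := by
    intro t _ x hx
    have h1 : ContinuousAt (fun p : ℝ × P => φ p.2) (t, x) :=
      ContinuousAt.comp (g := φ) (f := fun p : ℝ × P => p.2) (hφat x (hc.sphere_sub 1 hx))
        continuousAt_snd
    have h2 : ContinuousAt (fun p : ℝ × P => (1 + p.1 * (R - 1))) (t, x) := by fun_prop
    exact hc.ψc.continuousAt.comp (h2.smul h1)
  have hnorm : ∀ x ∈ ψ '' Metric.sphere (0 : EuclideanSpace ℝ (Fin D)) 1, ‖φ x‖ = 1 := by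
    rintro _ ⟨y, hy, rfl⟩
    rw [hc.φψ]
    simpa using hy
  have hHF : ∀ t ∈ Icc (0 : ℝ) 1, ∀ x ∈ ψ '' Metric.sphere 0 1,
      H t x ∈ ((ψ '' Metric.ball 0 1)ᶜ : Set P) := by
    rintro t ht x hx ⟨z, hz, hzy⟩
    have h1 := hc.ψi hzy
    rw [h1, mem_ball_zero_iff, norm_smul, hnorm x hx, mul_one, Real.norm_eq_abs,
      abs_of_pos (by nlinarith [ht.1])] at hz
    nlinarith [ht.1]
  have c1 := cob_pb_homotopy (hc.isCompact_sph 1) H hHc hHF hv
  have m0 : (0 : ℝ) ∈ Icc (0 : ℝ) 1 := left_mem_Icc.2 zero_le_one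
  have m1 : (1 : ℝ) ∈ Icc (0 : ℝ) 1 := right_mem_Icc.2 zero_le_one
  have hHt : ∀ t ∈ Icc (0 : ℝ) 1, ∀ x ∈ ψ '' Metric.sphere 0 1, ContinuousAt (H t) x := by
    intro t ht x hx
    have h2 : ContinuousAt (fun y : P => (t, y)) x := by fun_prop
    exact ContinuousAt.comp (x := x) (f := fun y : P => (t, y))
      (g := fun p : ℝ × P => H p.1 p.2) (hHc t ht x hx) h2
  have hsubW : ψ '' Metric.sphere 0 1 ⊆ (ψ '' Metric.ball 0 1)ᶜ := by
    rw [← hc.inter_eq 1]
    exact inter_subset_right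
  have c0 := cob_pb_sub (F := ψ '' Metric.sphere 0 1) (g₁ := id) (g₂ := H 0)
    (fun x _ => continuousAt_id) (hHt 0 m0) (fun x hx => by
      simp only [H, id, zero_mul, add_zero, one_smul]
      exact (hc.ψφ x (hc.sphere_sub 1 hx)).symm) (fun x hx => hsubW hx) hv
  have e1 : pb (id : P → P) v = v := by funext l; simp [pb]
  rw [e1] at c0
  have c2 := cob_pb (F := ψ '' Metric.sphere 0 1) (g := H 1) (hHt 1 m1)
    (F' := ψ '' Metric.sphere 0 R) (by
      intro x hx
      refine ⟨R • φ x, ?_, ?_⟩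
      · rw [mem_sphere_zero_iff_norm, norm_smul, hnorm x hx, Real.norm_eq_abs, abs_of_pos hR0,
          mul_one]
      · simp only [H, one_mul]
        congr 2
        ring) hv'
  have := (c0.add c1).add c2
  simpa using this

end Cell

/-- non-zero middle cohomology gives non-zero top cohomology. -/
theorem top_ne {P : Type*} [MetricSpace P] [CompactSpace P] {d : ℕ} (hd : 1 ≤ d)
    (S : Set P) (hS : IsClosed S)
    (eS : S ≃ₜ Metric.sphere (0 : EuclideanSpace ℝ (Fin (d + 1))) 1)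
    (eC : (Sᶜ : Set P) ≃ₜ EuclideanSpace ℝ (Fin (2 * d))) {a : Ch P}
    (ha : (AS P).Coc univ (d + 1) a) (hna : ¬ (AS P).Cob univ (d + 1) a) :
    ¬ (AS P).Ex univ (2 * d + 1) := by
  intro hex
  obtain ⟨ψ, φ, hc⟩ := exists_cell S hS eC
  obtain ⟨s, hs, hns⟩ := hc.exists_top (by omega)
  apply hns
  set K : Set P := ψ '' Metric.closedBall 0 1 with hK
  set W : Set P := (ψ '' Metric.ball 0 1)ᶜ with hW
  have hKW : K ∩ W = ψ '' Metric.sphere 0 1 := hc.inter_eq 1
  have hKc : IsCompact K := hc.isCompact_K 1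
  have hWc : IsClosed W := hc.isClosed_W 1
  -- the connecting homomorphism
  obtain ⟨k, hk1, hk2⟩ := (AS P).soft (2 * d + 1) ((AS P).D s) K W hKc.isClosed hWc (by
    intro z hz
    rw [hKW] at hz
    exact hs z hz)
  have hkc : (AS P).Coc univ (2 * d + 1) k := by
    intro z _
    have hz : z ∈ K ∪ W := by rw [← Cell.union_eq]; exact mem_univ z
    rcases hz with hz | hz
    · exact (AS P).D_mem z _ _ (hk1 z hz)
    · have h1 := (AS P).D_mem z _ _ (hk2 z hz)
      have h2 := (AS P).DD_mem z (2 * d + 1 + 1) s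
      rw [map_sub] at h1
      have := sub_mem h2 h1
      simpa using this
  obtain ⟨b, hb⟩ := hex k hkc
  -- `b` is a cocycle near `K`
  have hbK : (AS P).Coc K (2 * d) b := by
    intro z hz
    have := sub_mem (hk1 z hz) (hb z (mem_univ z))
    simpa using this
  have hbcob : (AS P).Cob K (2 * d) b := hc.ex_K one_pos (by omega) b hbK
  -- `s - b` is a cocycle near `W`
  have huW : (AS P).Coc W (2 * d) (s - b) := by
    intro z hz
    have := add_mem (hk2 z hz) (hb z (mem_univ z))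
    rw [map_sub]
    simpa using this
  -- approximate near `S`
  have hSW : S ⊆ W := hc.S_sub 1
  obtain ⟨u₀, hu₀, hu₀S⟩ : ∃ u₀, (AS P).Coc univ (2 * d) u₀ ∧ (AS P).Cob S (2 * d) (s - b - u₀) := by
    rcases Nat.lt_or_ge d 2 with h | h
    · obtain rfl : d = 1 := by omega
      have haS : ¬ (AS P).Cob S (1 + 1) a := fun h =>
        hna (inj_of_complement (by omega) S hS eC (q := 1) le_rfl (by omega) ha h)
      rcases rank_sphere_image (by omega) S hS eS (s - b) a (huW.mono hSW)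
        (ha.mono (subset_univ _)) with h | h | h
      · exact ⟨0, coc_zero _ _, by rw [sub_zero]; exact h⟩
      · exact absurd h haS
      · exact ⟨a, ha, h⟩
    · exact ⟨0, coc_zero _ _, by
        rw [sub_zero]
        exact ex_sphere_image hd S hS eS (2 * d) (by omega) (by omega) _ (huW.mono hSW)⟩
  obtain ⟨U, hU, hSU, hUc⟩ := hu₀S.isOpen
  obtain ⟨R, hR, hRU⟩ := hc.exists_radius hU hSU
  have hfar : (AS P).Cob (ψ '' Metric.sphere 0 R) (2 * d) (s - b - u₀) := by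
    refine hUc.mono (Subset.trans ?_ hRU)
    rw [← hc.inter_eq R]
    exact inter_subset_right
  have h1 := hc.cob_sph_of_far hR (huW.sub (hu₀.mono (subset_univ _))) hfar
  have h2 : (AS P).Cob (ψ '' Metric.sphere 0 1) (2 * d) u₀ :=
    (hc.ex_K one_pos (by omega) u₀ (hu₀.mono (subset_univ _))).mono (by
      rw [← hKW]; exact inter_subset_left)
  have h3 : (AS P).Cob (ψ '' Metric.sphere 0 1) (2 * d) b :=
    hbcob.mono (by rw [← hKW]; exact inter_subset_left)
  have := (h1.add h2).add h3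
  simpa using this

end Pool.Agent.H755.TT
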